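import Pool.Agent.KS6_55.TW.Space

/-!
# The space `Sg r N` is a compact connected symmetric space
-/

set_option autoImplicit false

open Set Topology
open scoped RealInnerProductSpace ContDiff
open Pool.Agent.T6.H39.TN (Ve Te tri inner_tri sg sg_zero sg_one zmod_cases sg_add sg_sq
  abs_sg sg_ne Sp ev Rf Rf_self Rf_Rf Rf_orth nz norm_nz Rf_nz c1 c1_tmul pr pr_tmul contDiff_pr
  inner_add_orth add_orth_ne inner_nz contDiff_nz norm_inv_pos proj_add exists_lift_nz
  finrank_orth contDiff_tri triIso triIso_tri IsSmoothSubmanifold tangentVectors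
  IsSymmetricSpace)

namespace Pool.Agent.KS6_55.TW

variable {r N : ℕ}

/-- the tangent space -/
abbrev Fg (x : Kx r → Ve N) : Type := ∀ c : Kx r, (ℝ ∙ x c)ᗮ

/-- the parametrisation -/
noncomputable def phiG (x : Kx r → Ve N) (f : Fg x) : En r N :=
  emb fun c => nz (x c + (f c : Ve N))

/-- the inverse of the parametrisation -/
noncomputable def psiG (x : Kx r → Ve N) (T : En r N) : Fg x := fun c =>
  (pr (x c) (ev 0) (x c) (T (c.1, 0)))⁻¹ •
    (ℝ ∙ x c)ᗮ.orthogonalProjectionOnto (c1 (ev 0) (x c) (T (c.1, 0)))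

/-- the domain of the chart -/
def Ug (x : Kx r → Ve N) : Set (En r N) :=
  {T | ∀ p : Gp r × Gp r, 0 < pr (hat x p.1) (hat x p.2) (hat x (p.1 + p.2)) (T p)}

theorem contDiff_apply_En (p : Gp r × Gp r) : ContDiff ℝ ∞ fun T : En r N => T p :=
  contDiff_piLp_apply 2

theorem isOpen_Ug (x : Kx r → Ve N) : IsOpen (Ug x) := by
  have h1 : Ug x = ⋂ p : Gp r × Gp r,
      {T : En r N | 0 < pr (hat x p.1) (hat x p.2) (hat x (p.1 + p.2)) (T p)} := by
    ext T
    simp [Ug]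
  rw [h1]
  exact isOpen_iInter_of_finite fun p => isOpen_lt continuous_const
    ((contDiff_pr _ _ _).continuous.comp (contDiff_apply_En p).continuous)

theorem pr_pos_of_mem {x : Kx r → Ve N} {T : En r N} (hT : T ∈ Ug x) (c : Kx r) :
    0 < pr (x c) (ev 0) (x c) (T (c.1, 0)) := by
  have h := hT (c.1, 0)
  simpa only [add_zero, hat_coe, hat_zero] using h

theorem contDiffOn_psiG (x : Kx r → Ve N) : ContDiffOn ℝ ∞ (psiG x) (Ug x) := by
  refine contDiffOn_pi.2 fun c => ?_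
  have h1 : ContDiffOn ℝ ∞ (fun T : En r N => (pr (x c) (ev 0) (x c) (T (c.1, 0)))⁻¹) (Ug x) :=
    ((contDiff_pr _ _ _).comp (contDiff_apply_En (c.1, 0))).contDiffOn.inv
      fun T hT => ne_of_gt (pr_pos_of_mem hT c)
  have h2 : ContDiff ℝ ∞ fun T : En r N =>
      (ℝ ∙ x c)ᗮ.orthogonalProjectionOnto (c1 (ev 0) (x c) (T (c.1, 0))) :=
    ((ℝ ∙ x c)ᗮ.orthogonalProjectionOnto.comp (c1 (ev 0) (x c))).contDiff.comp
      (contDiff_apply_En (c.1, 0))
  exact h1.smul h2.contDiffOn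

theorem contDiff_hat_nz {x : Kx r → Ve N} (hx : ∀ c, ‖x c‖ = 1) (c : Gp r) :
    ContDiff ℝ ∞ fun f : Fg x => hat (fun c => nz (x c + (f c : Ve N))) c := by
  unfold hat
  split_ifs with h
  · exact contDiff_const
  · exact (contDiff_nz (hx ⟨c, h⟩)).comp
      (ContinuousLinearMap.proj (R := ℝ) (φ := fun c : Kx r => (ℝ ∙ x c)ᗮ) ⟨c, h⟩).contDiff

theorem contDiff_phiG {x : Kx r → Ve N} (hx : ∀ c, ‖x c‖ = 1) : ContDiff ℝ ∞ (phiG x) := by
  refine contDiff_piLp' 2 fun p => ?_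
  exact contDiff_tri (contDiff_hat_nz hx p.1) (contDiff_hat_nz hx p.2)
    (contDiff_hat_nz hx (p.1 + p.2))

theorem inner_ev (j : Fin (N + 1)) : ⟪(ev j : Ve N), ev j⟫ = 1 := by
  rw [real_inner_self_eq_norm_sq, norm_ev]
  norm_num

theorem inner_hat_pos {x : Kx r → Ve N} (hx : ∀ c, ‖x c‖ = 1) (f : Fg x) (c : Gp r) :
    0 < ⟪hat x c, hat (fun c => nz (x c + (f c : Ve N))) c⟫ := by
  unfold hat
  split_ifs with h
  · rw [inner_ev]
    exact one_pos
  · rw [inner_nz (hx _)]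
    exact norm_inv_pos (hx _) _

theorem phiG_mem_Ug {x : Kx r → Ve N} (hx : ∀ c, ‖x c‖ = 1) (f : Fg x) : phiG x f ∈ Ug x := by
  intro p
  unfold phiG
  rw [emb_apply, pr_tmul]
  have e1 := inner_hat_pos hx f p.1
  have e2 := inner_hat_pos hx f p.2
  have e3 := inner_hat_pos hx f (p.1 + p.2)
  positivity

theorem psiG_phiG {x : Kx r → Ve N} (hx : ∀ c, ‖x c‖ = 1) (f : Fg x) :
    psiG x (phiG x f) = f := by
  funext c
  have e1 := norm_inv_pos (hx c) (f c)
  have h0 : phiG x f (c.1, 0) =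
      tri (nz (x c + (f c : Ve N))) (ev 0) (nz (x c + (f c : Ve N))) := by
    unfold phiG
    rw [emb_apply]
    simp only [add_zero]
    rw [hat_coe, hat_zero]
  unfold psiG
  rw [h0, pr_tmul, c1_tmul, inner_nz (hx c), inner_ev, one_mul]
  unfold nz
  rw [map_smul, map_smul, proj_add, smul_smul, smul_smul]
  have h1 : (‖x c + (f c : Ve N)‖⁻¹ * ‖x c + (f c : Ve N)‖⁻¹)⁻¹ * ‖x c + (f c : Ve N)‖⁻¹ *
      ‖x c + (f c : Ve N)‖⁻¹ = 1 := by
    rw [mul_assoc]
    exact inv_mul_cancel₀ (mul_pos e1 e1).ne'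
  rw [h1, one_smul]

theorem range_phiG {x : Kx r → Ve N} (hx : ∀ c, ‖x c‖ = 1) :
    range (phiG x) = Sg r N ∩ Ug x := by
  ext T
  constructor
  · rintro ⟨f, rfl⟩
    exact ⟨⟨_, fun c => norm_nz (add_orth_ne (hx c) _), rfl⟩, phiG_mem_Ug hx f⟩
  · rintro ⟨⟨y, hy, rfl⟩, hT⟩
    have hpos : ∀ a b : Gp r, 0 < ⟪hat x a, hat y a⟫ * (⟪hat x b, hat y b⟫ *
        ⟪hat x (a + b), hat y (a + b)⟫) := by
      intro a b
      have h1 := hT (a, b)
      rwa [emb_apply, pr_tmul] at h1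
    have hne : ∀ a : Gp r, ⟪hat x a, hat y a⟫ ≠ 0 := by
      intro a h0
      have h1 := hpos a a
      rw [h0, zero_mul] at h1
      exact lt_irrefl _ h1
    have hs : ∀ c : Gp r, ∃ u : ZMod 2, 0 < sg u * ⟪hat x c, hat y c⟫ := by
      intro c
      rcases lt_or_gt_of_ne (hne c) with h | h
      · exact ⟨1, by rw [sg_one]; linarith⟩
      · exact ⟨0, by rw [sg_zero]; linarith⟩
    choose s hs using hs
    obtain ⟨g, hg⟩ := exists_dot s (by
      intro a b
      have h1 := mul_pos (hs a) (mul_pos (hs b) (hs (a + b)))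
      have h2 : sg (s a) * ⟪hat x a, hat y a⟫ * (sg (s b) * ⟪hat x b, hat y b⟫ *
          (sg (s (a + b)) * ⟪hat x (a + b), hat y (a + b)⟫)) =
          sg (s a + s b + s (a + b)) * (⟪hat x a, hat y a⟫ * (⟪hat x b, hat y b⟫ *
            ⟪hat x (a + b), hat y (a + b)⟫)) := by
        rw [sg_add, sg_add]
        ring
      rw [h2] at h1
      have h3 := (pos_iff_pos_of_mul_pos h1).2 (hpos a b)
      rcases zmod_cases (s a + s b + s (a + b)) with h | h
      · exact h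
      · rw [h, sg_one] at h3
        norm_num at h3)
    have hlift : ∀ c : Kx r, ∃ u : (ℝ ∙ x c)ᗮ, nz (x c + (u : Ve N)) = sg (c.1 ⬝ᵥ g) • y c := by
      intro c
      refine exists_lift_nz ?_ ?_ (hx c)
      · rw [norm_smul, Real.norm_eq_abs, abs_sg, hy, mul_one]
      · have h1 := hs c.1
        rw [hat_coe, hat_coe, hg] at h1
        rwa [inner_smul_right]
    choose f hf using hlift
    refine ⟨f, ?_⟩
    unfold phiG
    simp only [hf]
    exact emb_sg g y

theorem phiG_zero {x : Kx r → Ve N} (hx : ∀ c, ‖x c‖ = 1) : phiG x 0 = emb x := by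
  unfold phiG
  congr 1
  funext c
  unfold nz
  simp [hx c]

/-- the symmetry -/
noncomputable def SfG (x : Kx r → Ve N) : En r N ≃ₗᵢ[ℝ] En r N :=
  LinearIsometryEquiv.piLpCongrRight 2 fun p : Gp r × Gp r =>
    triIso (Rf (hat x p.1)) (Rf (hat x p.2)) (Rf (hat x (p.1 + p.2)))

theorem hat_Rf (x y : Kx r → Ve N) (c : Gp r) :
    hat (fun c => Rf (x c) (y c)) c = Rf (hat x c) (hat y c) := by
  unfold hat
  split_ifs with h
  · rw [Rf_self]
  · rfl

theorem SfG_emb (x y : Kx r → Ve N) : SfG x (emb y) = emb fun c => Rf (x c) (y c) := by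
  refine PiLp.ext fun p => ?_
  unfold SfG
  rw [LinearIsometryEquiv.piLpCongrRight_apply]
  rw [emb_apply, hat_Rf, hat_Rf, hat_Rf, ← triIso_tri]
  rfl

theorem phiG_neg (x : Kx r → Ve N) (f : Fg x) : phiG x (-f) = SfG x (phiG x f) := by
  unfold phiG
  rw [SfG_emb]
  congr 1
  funext c
  rw [Rf_nz, map_add, Rf_self, Rf_orth (x c) (f c).2]
  rfl

theorem mem_Ug {x : Kx r → Ve N} (hx : ∀ c, ‖x c‖ = 1) : emb x ∈ Ug x := by
  rw [← phiG_zero hx]
  exact phiG_mem_Ug hx 0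

theorem card_Kx (r : ℕ) : Fintype.card (Kx r) = 2 ^ r - 1 := by
  have h : Fintype.card (Gp r) = 2 ^ r := by
    simp only [Fintype.card_fun, ZMod.card, Fintype.card_fin]
  rw [← h]
  simp only [ne_eq, Fintype.card_subtype_compl, Fintype.card_unique]

theorem finrank_Fg {x : Kx r → Ve N} (hx : ∀ c, ‖x c‖ = 1) :
    Module.finrank ℝ (Fg x) = (2 ^ r - 1) * N := by
  rw [Module.finrank_pi_fintype]
  simp only [finrank_orth (hx _)]
  rw [Finset.sum_const, Finset.card_univ, card_Kx, smul_eq_mul]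

theorem isSmoothSubmanifold_Sg (r N : ℕ) : IsSmoothSubmanifold ((2 ^ r - 1) * N) (Sg r N) := by
  rintro _ ⟨x, hx, rfl⟩
  have hfin : Module.finrank ℝ (Fg x) =
      Module.finrank ℝ (EuclideanSpace ℝ (Fin ((2 ^ r - 1) * N))) := by
    rw [finrank_Fg hx, finrank_euclideanSpace, Fintype.card_fin]
  let e : Fg x ≃L[ℝ] EuclideanSpace ℝ (Fin ((2 ^ r - 1) * N)) :=
    ContinuousLinearEquiv.ofFinrankEq hfin
  refine ⟨Ug x, phiG x ∘ e.symm, e ∘ psiG x, isOpen_Ug x, mem_Ug hx,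
    (contDiff_phiG hx).comp e.symm.contDiff,
    e.contDiff.comp_contDiffOn (contDiffOn_psiG x), ?_, fun v => ?_⟩
  · rw [range_comp, e.symm.surjective.range_eq, image_univ, range_phiG hx]
  · simp only [Function.comp_apply]
    rw [psiG_phiG hx, ContinuousLinearEquiv.apply_symm_apply]

theorem isCompact_Sg (r N : ℕ) : IsCompact (Sg r N) := by
  have : CompactSpace (Sg r N) := (isQuotientMap_qm (r := r) (N := N)).surjective.compactSpace
    (qm r N).continuous
  exact isCompact_iff_compactSpace.2 this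

theorem isConnected_Sg (r N : ℕ) (hN : 1 ≤ N) : IsConnected (Sg r N) := by
  have h1 : 1 < Module.rank ℝ (Ve N) := by
    rw [← Module.finrank_eq_rank, finrank_euclideanSpace, Fintype.card_fin]
    exact_mod_cast (by omega : 1 < N + 1)
  have h2 : IsConnected (Metric.sphere (0 : Ve N) 1) := isConnected_sphere h1 0 zero_le_one
  have : ConnectedSpace (Sp N) := isConnected_iff_connectedSpace.1 h2
  have h3 : ConnectedSpace (Sg r N) :=
    (isQuotientMap_qm (r := r) (N := N)).surjective.connectedSpace (qm r N).continuous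
  exact isConnected_iff_connectedSpace.2 h3

/-- The symmetries. -/
noncomputable def symG (r N : ℕ) (p : Sg r N) : En r N ≃ₗᵢ[ℝ] En r N := SfG p.2.choose

theorem symG_spec (p : Sg r N) : ∃ x : Kx r → Ve N, (∀ c, ‖x c‖ = 1) ∧
    (p : En r N) = emb x ∧ symG r N p = SfG x := by
  have h := p.2.choose_spec
  exact ⟨_, h.1, h.2, rfl⟩

theorem SfG_mem (x : Kx r → Ve N) {T : En r N} (hT : T ∈ Sg r N) : SfG x T ∈ Sg r N := by
  obtain ⟨y, hy, rfl⟩ := hT
  refine ⟨fun c => Rf (x c) (y c), fun c => ?_, SfG_emb x y⟩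
  rw [LinearIsometryEquiv.norm_map, hy]

theorem SfG_SfG (x : Kx r → Ve N) {T : En r N} (hT : T ∈ Sg r N) : SfG x (SfG x T) = T := by
  obtain ⟨y, hy, rfl⟩ := hT
  rw [SfG_emb, SfG_emb]
  simp only [Rf_Rf]

theorem differential_Sg {x : Kx r → Ve N} (hx : ∀ c, ‖x c‖ = 1) {v : En r N}
    (hv : v ∈ tangentVectors (Sg r N) (emb x)) : SfG x v = -v := by
  obtain ⟨γ, hγ, h0, hd⟩ := hv
  have hU : ∀ᶠ t in 𝓝 (0 : ℝ), γ t ∈ Ug x := by
    have hc : ContinuousAt γ 0 := hd.continuousAt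
    refine hc.eventually_mem ?_
    rw [h0]
    exact (isOpen_Ug x).mem_nhds (mem_Ug hx)
  let κ : ℝ → Fg x := fun t => psiG x (γ t)
  have hκ : DifferentiableAt ℝ κ 0 := by
    have h1 : DifferentiableAt ℝ (psiG x) (γ 0) := by
      rw [h0]
      exact ((contDiffOn_psiG x).contDiffAt
        ((isOpen_Ug x).mem_nhds (mem_Ug hx))).differentiableAt (by simp)
    exact h1.comp (0 : ℝ) hd.differentiableAt
  have hγκ : ∀ᶠ t in 𝓝 (0 : ℝ), phiG x (κ t) = γ t := by
    filter_upwards [hU] with t ht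
    have : γ t ∈ range (phiG x) := by
      rw [range_phiG hx]
      exact ⟨hγ t, ht⟩
    obtain ⟨f, hf⟩ := this
    change phiG x (psiG x (γ t)) = γ t
    rw [← hf, psiG_phiG hx]
  have hκ0 : κ 0 = 0 := by
    change psiG x (γ 0) = 0
    rw [h0, ← phiG_zero hx, psiG_phiG hx]
  have hφ : DifferentiableAt ℝ (phiG x) 0 :=
    (contDiff_phiG hx).contDiffAt.differentiableAt (by simp)
  -- the derivative of `γ`
  have h1 : HasDerivAt γ (fderiv ℝ (phiG x) 0 (deriv κ 0)) 0 := by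
    have h2 : HasDerivAt (fun t => phiG x (κ t)) (fderiv ℝ (phiG x) 0 (deriv κ 0)) 0 := by
      have h3 : HasFDerivAt (phiG x) (fderiv ℝ (phiG x) 0) (κ 0) := by
        rw [hκ0]
        exact hφ.hasFDerivAt
      exact h3.comp_hasDerivAt (0 : ℝ) hκ.hasDerivAt
    exact h2.congr_of_eventuallyEq (hγκ.mono fun t ht => ht.symm)
  have h2 : HasDerivAt (fun t => SfG x (γ t)) (fderiv ℝ (phiG x) 0 (-(deriv κ 0))) 0 := by
    have h3 : HasDerivAt (fun t => phiG x (-(κ t)))
        (fderiv ℝ (phiG x) 0 (-(deriv κ 0))) 0 := by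
      have h4 : HasFDerivAt (phiG x) (fderiv ℝ (phiG x) 0) (-(κ 0)) := by
        rw [hκ0, neg_zero]
        exact hφ.hasFDerivAt
      exact h4.comp_hasDerivAt (0 : ℝ) hκ.hasDerivAt.neg
    refine h3.congr_of_eventuallyEq (hγκ.mono fun t ht => ?_)
    change SfG x (γ t) = phiG x (-(κ t))
    rw [phiG_neg, ht]
  have h3 : HasDerivAt (fun t => SfG x (γ t)) (SfG x v) 0 := by
    exact ((SfG x).toContinuousLinearEquiv.toContinuousLinearMap.hasFDerivAt).comp_hasDerivAt
      (0 : ℝ) hd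
  have e1 := h3.unique h2
  have e2 := hd.unique h1
  rw [e1, e2, map_neg]

/-- **The space `Sg r N` is a compact connected symmetric space.** -/
theorem isSymmetricSpace_Sg (r N : ℕ) (hr : 1 ≤ r) (hN : 1 ≤ N) :
    IsSymmetricSpace (Sg r N) (symG r N) where
  submanifold := ⟨(2 ^ r - 1) * N, Nat.mul_pos (by
    have : 2 ^ 1 ≤ 2 ^ r := Nat.pow_le_pow_right (by norm_num) hr
    omega) (by omega), isSmoothSubmanifold_Sg r N⟩
  compact := isCompact_Sg r N
  connected := isConnected_Sg r N hN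
  maps p := by
    obtain ⟨x, hx, hp, hs⟩ := symG_spec p
    rw [hs]
    ext T
    constructor
    · rintro ⟨T', hT', rfl⟩
      exact SfG_mem x hT'
    · intro hT
      exact ⟨SfG x T, SfG_mem x hT, SfG_SfG x hT⟩
  fixes p := by
    obtain ⟨x, hx, hp, hs⟩ := symG_spec p
    rw [hs, hp, SfG_emb]
    simp only [Rf_self]
  differential p v hv := by
    obtain ⟨x, hx, hp, hs⟩ := symG_spec p
    rw [hs]
    rw [hp] at hv
    exact differential_Sg hx hv

end Pool.Agent.KS6_55.TW
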