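import Mathlib

/-!
# Combinatorics of cycles and cocycles for the group `(ℤ/2)^r`
-/

set_option autoImplicit false

open Finset MvPolynomial

namespace Pool.Agent.KS6_55.TW

/-- The group `(ℤ/2)^r`. -/
abbrev Gp (r : ℕ) : Type := Fin r → ZMod 2

theorem zadd_self (a : ZMod 2) : a + a = 0 := by
  revert a
  decide

theorem Gp.add_self {r : ℕ} (g : Gp r) : g + g = 0 := funext fun _ => zadd_self _

section chain

variable {G : Type}

/-- A product over consecutive pairs. -/
def chainP {R : Type} [CommMonoid R] {n : ℕ} (B : Fin n → G → G → R) (w : Fin (n + 1) → G) : R :=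
  ∏ l : Fin n, B l (w l.castSucc) (w l.succ)

theorem chainP_cons {R : Type} [CommMonoid R] {n : ℕ} (B : Fin (n + 1) → G → G → R) (g : G)
    (w : Fin (n + 1) → G) :
    chainP B (Fin.cons g w : Fin (n + 2) → G) = B 0 g (w 0) * chainP (fun l => B l.succ) w := by
  unfold chainP
  rw [Fin.prod_univ_succ]
  congr 1

/-- the sum over all faces of a product of additive functions of consecutive pairs vanishes. -/
theorem sum_facesG {n : ℕ} (A : Fin n → G → G → ZMod 2)
    (hA : ∀ l u v z, A l u v + A l v z = A l u z) (w : Fin (n + 2) → G) :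
    ∑ i : Fin (n + 2), chainP A (w ∘ i.succAbove) = 0 := by
  induction n with
  | zero =>
    simp only [chainP, Finset.univ_eq_empty, Finset.prod_empty, Finset.sum_const,
      Finset.card_univ, Fintype.card_fin]
    decide
  | succ n ih =>
    obtain ⟨g, w, rfl⟩ : ∃ (g : G) (w' : Fin (n + 2) → G), w = Fin.cons g w' :=
      ⟨w 0, Fin.tail w, (Fin.cons_self_tail w).symm⟩
    obtain ⟨g', v, rfl⟩ : ∃ (g' : G) (v : Fin (n + 1) → G), w = Fin.cons g' v :=
      ⟨w 0, Fin.tail w, (Fin.cons_self_tail w).symm⟩
    have h1 : ∀ (x : G) (u : Fin (n + 2) → G) (i : Fin (n + 2)),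
        (Fin.cons x u : Fin (n + 3) → G) ∘ i.succ.succAbove =
          Fin.cons x (u ∘ i.succAbove) := by
      intro x u i
      funext l
      refine Fin.cases ?_ (fun l => ?_) l
      · simp
      · simp
    have h0 : ∀ (m : ℕ) (x : G) (u : Fin (m + 1) → G),
        (Fin.cons x u : Fin (m + 2) → G) ∘ (0 : Fin (m + 2)).succAbove = u := by
      intro m x u
      funext l
      simp
    have h2 : ∀ (x : G) (u : Fin (n + 1) → G) (i : Fin (n + 1)),
        (Fin.cons x u : Fin (n + 2) → G) ∘ i.succ.succAbove =
          Fin.cons x (u ∘ i.succAbove) := by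
      intro x u i
      funext l
      refine Fin.cases ?_ (fun l => ?_) l
      · simp
      · simp
    rw [Fin.sum_univ_succ]
    simp only [h1, h0, chainP_cons]
    have ih' := ih (fun l => A l.succ) (fun l => hA l.succ) (Fin.cons g' v)
    rw [Fin.sum_univ_succ] at ih' ⊢
    simp only [h2, h0] at ih' ⊢
    have h3 : ∀ i : Fin (n + 1), (Fin.cons g' (v ∘ i.succAbove) : Fin (n + 1) → G) 0 = g' :=
      fun i => rfl
    simp only [h3, ← Finset.mul_sum]
    have h4 : ∑ i : Fin (n + 1), chainP (fun l => A l.succ) (Fin.cons g' (v ∘ i.succAbove)) =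
        chainP (fun l => A l.succ) v := by
      have := ih'
      rw [add_comm] at this
      have h5 := eq_neg_of_add_eq_zero_left this
      rwa [ZModModule.neg_eq_self] at h5
    rw [h4, ← hA 0 g g' (v 0)]
    have h6 : ∀ a b c : ZMod 2, a * c + ((b + a) * c + b * c) = 0 := by decide
    exact h6 _ _ _

/-- The sum of a product of a transfer matrix. -/
theorem sum_chainG [Fintype G] {R : Type} [CommRing R] {n : ℕ} (B : Fin n → G → G → R)
    (k : Fin n → R) (hB : ∀ l u, ∑ g : G, B l u g = k l) (g0 : G) :
    ∑ v : Fin n → G, chainP B (Fin.cons g0 v : Fin (n + 1) → G) = ∏ l, k l := by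
  induction n generalizing g0 with
  | zero => simp [chainP]
  | succ n ih =>
    rw [← (Fin.consEquiv fun _ : Fin (n + 1) => G).sum_comp, Fintype.sum_prod_type]
    have h1 : ∀ (x : G) (v : Fin n → G),
        chainP B (Fin.cons g0 ((Fin.consEquiv fun _ : Fin (n + 1) => G) (x, v)) :
          Fin (n + 2) → G) =
          B 0 g0 x * chainP (fun l => B l.succ) (Fin.cons x v : Fin (n + 1) → G) := by
      intro x v
      rw [chainP_cons]
      rfl
    simp only [h1, ← Finset.mul_sum]
    simp only [ih (fun l => B l.succ) (fun l => k l.succ) (fun l => hB l.succ)]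
    rw [← Finset.sum_mul, hB, Fin.prod_univ_succ]

end chain

variable {r : ℕ}

theorem sum_pi (F : Fin r → ZMod 2 → ZMod 2) :
    ∑ g : Gp r, ∏ j, F j (g j) = ∏ j, (F j 0 + F j 1) := by
  have h := Finset.sum_prod_piFinset (Finset.univ : Finset (ZMod 2)) F
  rw [Fintype.piFinset_univ] at h
  rw [h]
  refine Finset.prod_congr rfl fun j _ => ?_
  exact Fin.sum_univ_two (fun a : Fin 2 => F j a)

/-- `1` if `u` and `v` agree outside the place `i`, and `0` otherwise. -/
def off (i : Fin r) (u v : Gp r) : ZMod 2 := ∏ j, if j = i then 1 else 1 + u j + v j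

theorem off_comm (i : Fin r) (u v : Gp r) : off i u v = off i v u := by
  unfold off
  refine Finset.prod_congr rfl fun j _ => ?_
  rw [add_right_comm]

theorem sum_off (i : Fin r) (v : Gp r) : ∑ g : Gp r, off i g v = 0 := by
  have h := sum_pi fun j a => if j = i then 1 else 1 + a + v j
  unfold off
  rw [h]
  refine Finset.prod_eq_zero (Finset.mem_univ i) ?_
  simp only [if_pos]
  decide

theorem sum_off_mul (i k : Fin r) (u v : Gp r) :
    ∑ g : Gp r, off i u g * off k g v =
      ∏ j, (((if j = i then 1 else 1 + u j + 0) * (if j = k then 1 else 1 + 0 + v j)) +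
        ((if j = i then 1 else 1 + u j + 1) * (if j = k then 1 else 1 + 1 + v j)) : ZMod 2) := by
  have h := sum_pi fun j a => (if j = i then 1 else 1 + u j + a) * (if j = k then 1 else 1 + a + v j)
  unfold off
  simp only [← Finset.prod_mul_distrib]
  exact h

theorem sum_off_mul_self (i : Fin r) (u v : Gp r) : ∑ g : Gp r, off i u g * off i g v = 0 := by
  rw [sum_off_mul]
  refine Finset.prod_eq_zero (Finset.mem_univ i) ?_
  simp only [if_pos]
  decide

theorem sum_off_mul_comm (i k : Fin r) (u v : Gp r) :
    ∑ g : Gp r, off i u g * off k g v = ∑ g : Gp r, off k u g * off i g v := by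
  rw [sum_off_mul, sum_off_mul]
  refine Finset.prod_congr rfl fun j _ => ?_
  have h : ∀ a b : ZMod 2, ∀ p q : Bool,
      ((if p = true then 1 else 1 + a + 0) * (if q = true then 1 else 1 + 0 + b)) +
        ((if p = true then 1 else 1 + a + 1) * (if q = true then 1 else 1 + 1 + b)) =
      ((if q = true then 1 else 1 + a + 0) * (if p = true then 1 else 1 + 0 + b)) +
        ((if q = true then 1 else 1 + a + 1) * (if p = true then 1 else 1 + 1 + b)) := by
    decide
  have h1 := h (u j) (v j) (decide (j = i)) (decide (j = k))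
  simpa only [decide_eq_true_eq] using h1

theorem sum_diff_off (i k : Fin r) (u : Gp r) :
    ∑ g : Gp r, (u i + g i) * off k u g = if k = i then 1 else 0 := by
  have h0 : ∀ g : Gp r, (u i + g i) * off k u g =
      ∏ j, ((if j = i then u j + g j else 1) * (if j = k then 1 else 1 + u j + g j)) := by
    intro g
    rw [Finset.prod_mul_distrib]
    unfold off
    congr 1
    rw [Finset.prod_ite_eq']
    simp
  simp only [h0]
  rw [sum_pi fun j a => (if j = i then u j + a else 1) * (if j = k then 1 else 1 + u j + a)]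
  have e1 : ∀ a : ZMod 2, a + 0 + (a + 1) = 1 := by decide
  have e2 : ∀ a : ZMod 2, (1 + a + 0) + (1 + a + 1) = 1 := by decide
  split_ifs with h
  · subst h
    refine Finset.prod_eq_one fun j _ => ?_
    by_cases hj : j = k
    · simp only [if_pos hj, mul_one, e1]
    · simp only [if_neg hj, one_mul, e2]
  · refine Finset.prod_eq_zero (Finset.mem_univ k) ?_
    simp only [if_neg h, if_true, mul_one]
    decide

/-- the transfer matrix of the shuffles -/
noncomputable def MtG (u v : Gp r) : MvPolynomial (Fin r) (ZMod 2) :=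
  ∑ i, C (off i u v) * X i

theorem MtG_comm (u v : Gp r) : MtG u v = MtG v u := by
  unfold MtG
  simp only [off_comm _ u v]

theorem sum_MtG_left (v : Gp r) : ∑ g : Gp r, MtG g v = 0 := by
  unfold MtG
  rw [Finset.sum_comm]
  refine Finset.sum_eq_zero fun i _ => ?_
  rw [← Finset.sum_mul, ← map_sum, sum_off, map_zero, zero_mul]

theorem sum_MtG_right (v : Gp r) : ∑ g : Gp r, MtG v g = 0 := by
  simp only [fun g => MtG_comm v g, sum_MtG_left]

theorem sum_MtG_mul (u v : Gp r) : ∑ g : Gp r, MtG u g * MtG g v = 0 := by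
  have h1 : ∑ g : Gp r, MtG u g * MtG g v =
      ∑ p : Fin r × Fin r, C (∑ g : Gp r, off p.1 u g * off p.2 g v) * (X p.1 * X p.2) := by
    unfold MtG
    simp only [Finset.sum_mul_sum]
    rw [Finset.sum_comm]
    rw [Fintype.sum_prod_type]
    refine Finset.sum_congr rfl fun i _ => ?_
    rw [Finset.sum_comm]
    refine Finset.sum_congr rfl fun k _ => ?_
    rw [map_sum, Finset.sum_mul]
    refine Finset.sum_congr rfl fun g _ => ?_
    rw [map_mul]
    ring
  rw [h1]
  refine Finset.sum_involution (fun p _ => (p.2, p.1)) ?_ ?_ ?_ ?_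
  · rintro ⟨i, k⟩ _
    simp only
    rw [sum_off_mul_comm k i, mul_comm (X k) (X i), ← two_mul]
    have : (2 : MvPolynomial (Fin r) (ZMod 2)) = 0 := CharP.cast_eq_zero _ 2
    rw [this, zero_mul]
  · rintro ⟨i, k⟩ _ hne heq
    apply hne
    simp only [Prod.mk.injEq] at heq
    obtain ⟨h, -⟩ := heq
    subst h
    simp only [sum_off_mul_self, map_zero, zero_mul]
  · intro p _
    exact Finset.mem_univ _
  · intro p _
    rfl

/-- The coefficients of the cycles. -/
noncomputable def PwG {n : ℕ} (w : Fin (n + 1) → Gp r) : MvPolynomial (Fin r) (ZMod 2) :=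
  chainP (fun _ => MtG) w

theorem PwG_add {n : ℕ} (g : Gp r) (w : Fin (n + 1) → Gp r) :
    PwG (fun l => g + w l) = PwG w := by
  have h : ∀ x y z : ZMod 2, 1 + (x + y) + (x + z) = 1 + y + z := by decide
  unfold PwG chainP MtG off
  simp only [Pi.add_apply, h]

theorem sum_PwG_update {n : ℕ} (i : Fin (n + 2)) (w : Fin (n + 2) → Gp r) :
    ∑ g : Gp r, PwG (Function.update w i g) = 0 := by
  classical
  unfold PwG chainP
  let A : Finset (Fin (n + 1)) := Finset.univ.filter fun l => l.castSucc = i ∨ l.succ = i
  have hsplit : ∀ g : Gp r, ∏ l : Fin (n + 1),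
      MtG (Function.update w i g l.castSucc) (Function.update w i g l.succ) =
      (∏ l ∈ A, MtG (Function.update w i g l.castSucc) (Function.update w i g l.succ)) *
        ∏ l ∈ Aᶜ, MtG (w l.castSucc) (w l.succ) := by
    intro g
    have e1 : ∏ l ∈ Aᶜ, MtG (Function.update w i g l.castSucc) (Function.update w i g l.succ) =
        ∏ l ∈ Aᶜ, MtG (w l.castSucc) (w l.succ) := by
      refine Finset.prod_congr rfl fun l hl => ?_
      have hl' : ¬ (l.castSucc = i ∨ l.succ = i) := by
        intro h
        exact (Finset.mem_compl.1 hl) (Finset.mem_filter.2 ⟨Finset.mem_univ l, h⟩)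
      rw [not_or] at hl'
      rw [Function.update_of_ne hl'.1, Function.update_of_ne hl'.2]
    rw [← e1]
    exact (Finset.prod_mul_prod_compl A _).symm
  simp only [hsplit, ← Finset.sum_mul]
  convert zero_mul _
  rcases Fin.eq_castSucc_or_eq_last i with ⟨j, rfl⟩ | rfl
  · rcases Fin.eq_zero_or_eq_succ j with rfl | ⟨j', rfl⟩
    · -- the first vertex
      have hA : A = {0} := by
        ext l
        simp only [A, Finset.mem_filter, Finset.mem_univ, true_and, Finset.mem_singleton,
          Fin.ext_iff, Fin.val_castSucc, Fin.val_succ, Fin.val_zero]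
        omega
      rw [hA]
      simp only [Finset.prod_singleton]
      have h1 : ∀ g, MtG (Function.update w (Fin.castSucc 0) g (Fin.castSucc 0))
          (Function.update w (Fin.castSucc 0) g (Fin.succ 0)) = MtG g (w (Fin.succ 0)) := by
        intro g
        rw [Function.update_self, Function.update_of_ne (by simp [Fin.ext_iff])]
      simp only [h1, sum_MtG_left]
    · -- an interior vertex
      have hA : A = {j'.castSucc, j'.succ} := by
        ext l
        simp only [A, Finset.mem_filter, Finset.mem_univ, true_and, Finset.mem_insert,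
          Finset.mem_singleton, Fin.ext_iff, Fin.val_castSucc, Fin.val_succ]
        omega
      rw [hA]
      have hne : j'.castSucc ≠ j'.succ := by simp [Fin.ext_iff]
      simp only [Finset.prod_pair hne]
      have h1 : ∀ g, MtG (Function.update w (Fin.castSucc j'.succ) g (Fin.castSucc j'.castSucc))
          (Function.update w (Fin.castSucc j'.succ) g (Fin.succ j'.castSucc)) *
          MtG (Function.update w (Fin.castSucc j'.succ) g (Fin.castSucc j'.succ))
          (Function.update w (Fin.castSucc j'.succ) g (Fin.succ j'.succ)) =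
          MtG (w (Fin.castSucc j'.castSucc)) g * MtG g (w (Fin.succ j'.succ)) := by
        intro g
        have e1 : (Fin.succ j'.castSucc : Fin (n + 2)) = Fin.castSucc j'.succ := by
          simp [Fin.ext_iff]
        rw [e1, Function.update_self, Function.update_of_ne (by simp [Fin.ext_iff]),
          Function.update_of_ne (by simp [Fin.ext_iff])]
      simp only [h1, sum_MtG_mul]
  · -- the last vertex
    have hA : A = {Fin.last n} := by
      ext l
      simp only [A, Finset.mem_filter, Finset.mem_univ, true_and, Finset.mem_singleton,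
        Fin.ext_iff, Fin.val_castSucc, Fin.val_succ, Fin.val_last]
      omega
    rw [hA]
    simp only [Finset.prod_singleton]
    have h1 : ∀ g, MtG (Function.update w (Fin.last (n + 1)) g (Fin.castSucc (Fin.last n)))
        (Function.update w (Fin.last (n + 1)) g (Fin.succ (Fin.last n))) =
        MtG (w (Fin.castSucc (Fin.last n))) g := by
      intro g
      rw [Function.update_of_ne (by simp [Fin.ext_iff])]
      congr 1
      rw [Fin.succ_last, Function.update_self]
    simp only [h1, sum_MtG_right]

theorem sum_PwG_insertNth {n : ℕ} (i : Fin (n + 2)) (w : Fin (n + 1) → Gp r) :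
    ∑ g : Gp r, PwG (i.insertNth g w : Fin (n + 2) → Gp r) = 0 := by
  have h := sum_PwG_update i (i.insertNth (0 : Gp r) w : Fin (n + 2) → Gp r)
  simpa only [Fin.update_insertNth] using h

/-- the additive functions of the cocycle of the word `t`. -/
def AfG {n : ℕ} (t : Fin n → Fin r) (l : Fin n) (u v : Gp r) : ZMod 2 := u (t l) + v (t l)

theorem AfG_add {n : ℕ} (t : Fin n → Fin r) (l : Fin n) (u v z : Gp r) :
    AfG t l u v + AfG t l v z = AfG t l u z := by
  have h : ∀ x y z : ZMod 2, x + y + (y + z) = x + z := by decide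
  exact h _ _ _

/-- the cocycles -/
def TwG {n : ℕ} (t : Fin n → Fin r) (w : Fin (n + 1) → Gp r) : ZMod 2 := chainP (AfG t) w

theorem TwG_add {n : ℕ} (t : Fin n → Fin r) (g : Gp r) (w : Fin (n + 1) → Gp r) :
    TwG t (fun l => g + w l) = TwG t w := by
  have h : ∀ x y z : ZMod 2, x + y + (x + z) = y + z := by decide
  unfold TwG chainP AfG
  refine Finset.prod_congr rfl fun l _ => ?_
  simp only [Pi.add_apply, h]

theorem sum_MtG_AfG {n : ℕ} (t : Fin n → Fin r) (l : Fin n) (u : Gp r) :
    ∑ g : Gp r, C (AfG t l u g) * MtG u g = X (t l) := by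
  have h1 : ∑ g : Gp r, C (AfG t l u g) * MtG u g =
      ∑ k : Fin r, C (∑ g : Gp r, (u (t l) + g (t l)) * off k u g) * X k := by
    unfold MtG AfG
    simp only [Finset.mul_sum]
    rw [Finset.sum_comm]
    refine Finset.sum_congr rfl fun k _ => ?_
    rw [map_sum, Finset.sum_mul]
    refine Finset.sum_congr rfl fun g _ => ?_
    rw [map_mul]
    ring
  rw [h1]
  simp only [sum_diff_off]
  rw [Finset.sum_eq_single (t l)]
  · simp
  · intro k _ hk
    rw [if_neg hk, map_zero, zero_mul]
  · simp

/-- The pairing of the cycles with the cocycles. -/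
theorem sum_PwG_TwG {n : ℕ} (t : Fin n → Fin r) :
    ∑ v : Fin n → Gp r, C (TwG t (Fin.cons 0 v)) * PwG (Fin.cons 0 v : Fin (n + 1) → Gp r) =
      ∏ l, X (t l) := by
  have h1 : ∀ v : Fin n → Gp r,
      C (TwG t (Fin.cons 0 v)) * PwG (Fin.cons 0 v : Fin (n + 1) → Gp r) =
      chainP (fun l u g => C (AfG t l u g) * MtG u g) (Fin.cons 0 v : Fin (n + 1) → Gp r) := by
    intro v
    unfold TwG PwG chainP
    rw [map_prod, ← Finset.prod_mul_distrib]
  simp only [h1]
  exact sum_chainG _ (fun l : Fin n => X (t l)) (fun l u => sum_MtG_AfG t l u) 0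

end Pool.Agent.KS6_55.TW
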