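import Pool.Graph.R_pool_sql_team_seeded_47a924f7.T6.H39.TN.Two
import Pool.Agent.KS6_55.TW.Comb

/-!
# Lower bound for the mod 2 cohomology of a quotient by `(ℤ/2)^r`
-/

set_option autoImplicit false

open Set Topology
open scoped Cardinal
open Pool.Agent.T6.H39.TN (Simplex face Cochain coboundary coboundaries Cohomology totalBetti
  face_vertex)

namespace Pool.Agent.KS6_55.TW

variable {r : ℕ} {X M : Type} [TopologicalSpace X] [TopologicalSpace M] [AddAction (Gp r) X]
  {q : C(X, M)}

theorem exists_liftG (hq : IsAddQuotientCoveringMap q (Gp r)) {n : ℕ} (σ : C(Simplex n, M)) :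
    ∃ τ : C(Simplex n, X), q.comp τ = σ := by
  let a0 : Simplex n := stdSimplex.vertex 0
  obtain ⟨e0, he0⟩ := hq.surjective (σ a0)
  obtain ⟨τ, ⟨-, hτ⟩, -⟩ := hq.isCoveringMap.existsUnique_continuousMap_lifts σ a0 e0 he0
  exact ⟨τ, ContinuousMap.ext fun p => congrFun hτ p⟩

theorem lift_uniqueG (hq : IsAddQuotientCoveringMap q (Gp r)) {n : ℕ} {τ τ' : C(Simplex n, X)}
    (h : q.comp τ = q.comp τ') : ∃ g : Gp r, ∀ p, τ' p = g +ᵥ τ p := by
  let a0 : Simplex n := stdSimplex.vertex 0
  have h1 : q (τ' a0) = q (τ a0) := (DFunLike.congr_fun h a0).symm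
  obtain ⟨g, hg⟩ := (hq.apply_eq_iff_mem_orbit).1 h1
  have hc : Continuous fun x : X => g +ᵥ x := hq.toContinuousConstVAdd.continuous_const_vadd g
  let τ'' : C(Simplex n, X) := ⟨fun p => g +ᵥ τ p, hc.comp τ.continuous⟩
  have hq' : ∀ x : X, q (g +ᵥ x) = q x := fun x => hq.map_vadd g
  obtain ⟨τ0, -, huniq⟩ :=
    hq.isCoveringMap.existsUnique_continuousMap_lifts (q.comp τ') a0 (τ' a0) rfl
  have e1 : τ' = τ0 := huniq τ' ⟨rfl, rfl⟩
  have e2 : τ'' = τ0 := huniq τ'' ⟨hg, by
    funext p
    change q (g +ᵥ τ p) = q (τ' p)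
    rw [hq']
    exact DFunLike.congr_fun h p⟩
  refine ⟨g, fun p => ?_⟩
  have e3 : τ' = τ'' := e1.trans e2.symm
  exact DFunLike.congr_fun e3 p

/-- The cochain given by a function of the labels of the vertices of a lift. -/
noncomputable def labelCochainG (hq : IsAddQuotientCoveringMap q (Gp r)) (ε : X → Gp r) {n : ℕ}
    (F : (Fin (n + 1) → Gp r) → ZMod 2) : Cochain M n :=
  fun σ => F fun l => ε ((exists_liftG hq σ).choose (stdSimplex.vertex l))

theorem labelCochainG_comp (hq : IsAddQuotientCoveringMap q (Gp r)) {ε : X → Gp r}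
    (hε : ∀ g x, ε (g +ᵥ x) = g + ε x) {n : ℕ} {F : (Fin (n + 1) → Gp r) → ZMod 2}
    (hF : ∀ g w, F (fun l => g + w l) = F w) (τ : C(Simplex n, X)) :
    labelCochainG hq ε F (q.comp τ) = F fun l => ε (τ (stdSimplex.vertex l)) := by
  have h1 := (exists_liftG hq (q.comp τ)).choose_spec
  obtain ⟨g, hg⟩ := lift_uniqueG hq h1.symm
  unfold labelCochainG
  simp only [hg, hε, hF]

theorem coboundary_labelCochainG (hq : IsAddQuotientCoveringMap q (Gp r)) {ε : X → Gp r}
    (hε : ∀ g x, ε (g +ᵥ x) = g + ε x) {n : ℕ} {F : (Fin (n + 1) → Gp r) → ZMod 2}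
    (hF : ∀ g w, F (fun l => g + w l) = F w)
    (hF0 : ∀ w : Fin (n + 2) → Gp r, ∑ i : Fin (n + 2), F (w ∘ i.succAbove) = 0) :
    coboundary M n (labelCochainG hq ε F) = 0 := by
  funext σ
  obtain ⟨τ, rfl⟩ := exists_liftG hq σ
  change ∑ i : Fin (n + 2), labelCochainG hq ε F ((q.comp τ).comp (face n i)) = 0
  rw [← hF0 fun l => ε (τ (stdSimplex.vertex l))]
  refine Finset.sum_congr rfl fun i _ => ?_
  rw [ContinuousMap.comp_assoc, labelCochainG_comp hq hε hF]
  simp only [ContinuousMap.comp_apply, face_vertex]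
  rfl

/-- A family of singular simplices of `X` with labelled vertices. -/
structure FramesG (N : ℕ) (q : C(X, M)) (ε : X → Gp r) where
  /-- the simplex with the vertices `(I l, w l)` -/
  S : ∀ {m : ℕ}, (Fin (m + 1) ↪ Fin (N + 1)) → (Fin (m + 1) → Gp r) → C(Simplex m, X)
  face_eq : ∀ {m : ℕ} (I : Fin (m + 2) ↪ Fin (N + 1)) (w : Fin (m + 2) → Gp r) (i : Fin (m + 2)),
    (S I w).comp (face m i) = S (i.succAboveEmb.trans I) (w ∘ i.succAbove)
  add_eq : ∀ {m : ℕ} (I : Fin (m + 1) ↪ Fin (N + 1)) (g : Gp r) (w : Fin (m + 1) → Gp r),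
    q.comp (S I fun l => g + w l) = q.comp (S I w)
  label_eq : ∀ {m : ℕ} (I : Fin (m + 1) ↪ Fin (N + 1)) (w : Fin (m + 1) → Gp r)
    (l : Fin (m + 1)), ε (S I w (stdSimplex.vertex l)) = w l

/-- The functional on cochains. -/
noncomputable def functionalG {N : ℕ} {ε : X → Gp r} (Φ : FramesG N q ε) {n : ℕ}
    (I : Fin (n + 1) ↪ Fin (N + 1)) : Cochain M n →ₗ[ZMod 2] MvPolynomial (Fin r) (ZMod 2) where
  toFun f := ∑ v : Fin n → Gp r, f (q.comp (Φ.S I (Fin.cons 0 v))) • PwG (Fin.cons 0 v)
  map_add' f g := by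
    simp [add_smul, Finset.sum_add_distrib]
  map_smul' c f := by
    simp [mul_smul, Finset.smul_sum]

/-- The equivalence `v = g + (0, v')`. -/
def shiftEquivG (r m : ℕ) : Gp r × (Fin m → Gp r) ≃ (Fin (m + 1) → Gp r) where
  toFun x := fun l => x.1 + (Fin.cons 0 x.2 : Fin (m + 1) → Gp r) l
  invFun v := (v 0, fun l => v l.succ - v 0)
  left_inv x := by
    obtain ⟨g, v⟩ := x
    refine Prod.ext ?_ ?_
    · simp
    · funext l
      simp
  right_inv v := by
    funext l
    refine Fin.cases ?_ (fun l => ?_) l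
    · simp
    · simp

omit [AddAction (Gp r) X] in
theorem functionalG_coboundary {N : ℕ} {ε : X → Gp r} (Φ : FramesG N q ε) {n : ℕ}
    (I : Fin (n + 2) ↪ Fin (N + 1)) (f : Cochain M n) :
    functionalG Φ I (coboundary M n f) = 0 := by
  change ∑ v : Fin (n + 1) → Gp r,
    (∑ i : Fin (n + 2), f ((q.comp (Φ.S I (Fin.cons 0 v))).comp (face n i))) •
      PwG (Fin.cons 0 v : Fin (n + 2) → Gp r) = 0
  simp only [Finset.sum_smul, ContinuousMap.comp_assoc, Φ.face_eq]
  rw [Finset.sum_comm]
  refine Finset.sum_eq_zero fun i _ => ?_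
  refine Fin.cases ?_ (fun j => ?_) i
  · -- the face opposite to the vertex `0`
    have h0 : ∀ v : Fin (n + 1) → Gp r,
        (Fin.cons 0 v : Fin (n + 2) → Gp r) ∘ (0 : Fin (n + 2)).succAbove = v := by
      intro v
      funext l
      simp
    simp only [h0]
    rw [← (shiftEquivG r n).sum_comp, Fintype.sum_prod_type, Finset.sum_comm]
    refine Finset.sum_eq_zero fun v _ => ?_
    have h1 : ∀ g : Gp r, q.comp (Φ.S ((0 : Fin (n + 2)).succAboveEmb.trans I)
        (shiftEquivG r n (g, v))) = q.comp (Φ.S ((0 : Fin (n + 2)).succAboveEmb.trans I)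
          (Fin.cons 0 v)) := fun g => Φ.add_eq _ g _
    simp only [h1, ← Finset.smul_sum]
    have h2 : ∀ g : Gp r, PwG (Fin.cons 0 (shiftEquivG r n (g, v)) : Fin (n + 2) → Gp r) =
        PwG ((0 : Fin (n + 2)).insertNth g (Fin.cons 0 v) : Fin (n + 2) → Gp r) := by
      intro g
      have hg : g + g = 0 := Gp.add_self g
      rw [← PwG_add g (Fin.cons 0 (shiftEquivG r n (g, v)) : Fin (n + 2) → Gp r)]
      congr 1
      funext l
      rw [Fin.insertNth_zero']
      refine Fin.cases ?_ (fun l => ?_) l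
      · simp
      · simp only [Fin.cons_succ, shiftEquivG, Equiv.coe_fn_mk]
        rw [← add_assoc, hg, zero_add]
    simp only [h2, sum_PwG_insertNth, smul_zero]
  · -- the other faces
    have h0 : ∀ v : Fin (n + 1) → Gp r,
        (Fin.cons 0 v : Fin (n + 2) → Gp r) ∘ j.succ.succAbove =
          Fin.cons 0 (v ∘ j.succAbove) := by
      intro v
      cases n with
      | zero =>
        funext l
        have hl : l = 0 := Fin.ext (by omega)
        subst hl
        have hj : j = 0 := Fin.ext (by omega)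
        subst hj
        rfl
      | succ n =>
        funext l
        refine Fin.cases ?_ (fun l => ?_) l
        · simp
        · simp
    simp only [h0]
    rw [← (Fin.insertNthEquiv (fun _ => Gp r) j).sum_comp, Fintype.sum_prod_type, Finset.sum_comm]
    refine Finset.sum_eq_zero fun v _ => ?_
    have h1 : ∀ g : Gp r, (Fin.insertNthEquiv (fun _ => Gp r) j (g, v)) ∘ j.succAbove = v := by
      intro g
      funext l
      simp
    simp only [h1, ← Finset.smul_sum]
    have h2 : ∀ g : Gp r, (Fin.cons 0 (Fin.insertNthEquiv (fun _ => Gp r) j (g, v)) :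
        Fin (n + 2) → Gp r) = j.succ.insertNth g (Fin.cons 0 v) := by
      intro g
      exact (Fin.insertNth_succ_cons j g (0 : Gp r) v).symm
    simp only [h2, sum_PwG_insertNth, smul_zero]

/-! ### Monomials -/

/-- The elements of a multiset of size `n`, as a word. -/
noncomputable def word {r n : ℕ} (s : Sym (Fin r) n) : Fin n → Fin r :=
  fun l => s.1.toList.get (l.cast (by rw [Multiset.length_toList]; exact s.2.symm))

theorem ofFn_word {r n : ℕ} (s : Sym (Fin r) n) : List.ofFn (word s) = s.1.toList := by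
  have hlen : n = s.1.toList.length := by rw [Multiset.length_toList]; exact s.2.symm
  apply List.ext_get
  · rw [List.length_ofFn]
    exact hlen
  · intro i h1 h2
    simp [word] <;> rfl

theorem prod_map_X {r : ℕ} (m : Multiset (Fin r)) :
    (m.map fun i => (MvPolynomial.X i : MvPolynomial (Fin r) (ZMod 2))).prod =
      MvPolynomial.monomial (Multiset.toFinsupp m) 1 := by
  induction m using Multiset.induction_on with
  | empty => simp
  | cons a m ih =>
    rw [Multiset.map_cons, Multiset.prod_cons, ih, ← Multiset.singleton_add, map_add,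
      Multiset.toFinsupp_singleton, MvPolynomial.X, MvPolynomial.monomial_mul, one_mul]

theorem prod_word {r n : ℕ} (s : Sym (Fin r) n) :
    ∏ l, (MvPolynomial.X (word s l) : MvPolynomial (Fin r) (ZMod 2)) =
      MvPolynomial.monomial (Multiset.toFinsupp s.1) 1 := by
  rw [← prod_map_X, ← List.prod_ofFn]
  have h1 : (List.ofFn fun l => (MvPolynomial.X (word s l) : MvPolynomial (Fin r) (ZMod 2))) =
      (s.1.toList).map MvPolynomial.X := by
    rw [← ofFn_word s, List.map_ofFn]
    rfl
  rw [h1]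
  conv_rhs => rw [← Multiset.coe_toList s.1]
  rw [Multiset.map_coe, Multiset.prod_coe]

theorem linearIndependent_word (r n : ℕ) :
    LinearIndependent (ZMod 2) fun s : Sym (Fin r) n =>
      ∏ l, (MvPolynomial.X (word s l) : MvPolynomial (Fin r) (ZMod 2)) := by
  have h2 := (MvPolynomial.basisMonomials (Fin r) (ZMod 2)).linearIndependent
  have hinj : Function.Injective fun s : Sym (Fin r) n => Multiset.toFinsupp s.1 :=
    fun s t h => Subtype.ext (Multiset.toFinsupp.injective h)
  have h3 := h2.comp (fun s : Sym (Fin r) n => Multiset.toFinsupp s.1) hinj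
  have h4 : (⇑(MvPolynomial.basisMonomials (Fin r) (ZMod 2)) ∘
      fun s : Sym (Fin r) n => Multiset.toFinsupp s.1) =
      fun s : Sym (Fin r) n =>
        ∏ l, (MvPolynomial.X (word s l) : MvPolynomial (Fin r) (ZMod 2)) := by
    funext s
    rw [prod_word]
    simp [MvPolynomial.coe_basisMonomials]
  rw [h4] at h3
  exact h3

/-- **The lower bound** for the dimension of `H^n`: the number of monomials of degree `n`. -/
theorem le_rank_of_framesG (hq : IsAddQuotientCoveringMap q (Gp r)) {ε : X → Gp r}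
    (hε : ∀ g x, ε (g +ᵥ x) = g + ε x) {N : ℕ} (Φ : FramesG N q ε) (n : ℕ) (hn : n ≤ N) :
    ((r.multichoose n : ℕ) : Cardinal.{0}) ≤ Module.rank (ZMod 2) (Cohomology M n) := by
  let I : Fin (n + 1) ↪ Fin (N + 1) := (Fin.castLEEmb (by omega))
  let L := functionalG Φ I
  let K := LinearMap.ker (coboundary M n)
  have hL : ∀ f ∈ coboundaries M n, L f = 0 := by
    intro f hf
    cases n with
    | zero =>
      have : f = 0 := hf
      rw [this, map_zero]
    | succ n =>
      obtain ⟨g, rfl⟩ := hf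
      exact functionalG_coboundary Φ I g
  let t : Sym (Fin r) n → Cochain M n := fun s => labelCochainG hq ε (TwG (word s))
  have ht : ∀ s, coboundary M n (t s) = 0 := fun s =>
    coboundary_labelCochainG hq hε (TwG_add (word s)) fun w => sum_facesG (AfG (word s)) (AfG_add (word s)) w
  let L' : Cohomology M n →ₗ[ZMod 2] MvPolynomial (Fin r) (ZMod 2) :=
    Submodule.liftQ ((coboundaries M n).submoduleOf K) (L.comp K.subtype) (by
      intro f hf
      exact hL _ hf)
  let h : Sym (Fin r) n → Cohomology M n := fun s => Submodule.Quotient.mk ⟨t s, ht s⟩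
  have h0 : (L' ∘ h) = fun s : Sym (Fin r) n =>
      ∏ l, (MvPolynomial.X (word s l) : MvPolynomial (Fin r) (ZMod 2)) := by
    funext s
    change functionalG Φ I (labelCochainG hq ε (TwG (word s))) = _
    rw [← sum_PwG_TwG (word s)]
    change ∑ v : Fin n → Gp r, labelCochainG hq ε (TwG (word s)) (q.comp (Φ.S I (Fin.cons 0 v))) •
        PwG (Fin.cons 0 v) = _
    refine Finset.sum_congr rfl fun v _ => ?_
    rw [labelCochainG_comp hq hε (TwG_add (word s)), MvPolynomial.smul_eq_C_mul]
    simp only [Φ.label_eq]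
  have h1 : LinearIndependent (ZMod 2) (L' ∘ h) := by
    rw [h0]
    exact linearIndependent_word r n
  have h2 : LinearIndependent (ZMod 2) h := h1.of_comp L'
  have h3 := h2.cardinal_le_rank
  rw [Cardinal.mk_fintype, Sym.card_sym_eq_multichoose, Fintype.card_fin] at h3
  exact h3

/-- Sums of multichoose numbers. -/
theorem sum_multichoose (r N : ℕ) :
    ∑ n ∈ Finset.range (N + 1), r.multichoose n = (r + 1).multichoose N := by
  induction N with
  | zero => simp
  | succ N ih =>
    rw [Finset.sum_range_succ, ih, Nat.multichoose_succ_succ, add_comm]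

/-- Lower bound for the total Betti number. -/
theorem le_totalBettiG {M : Type} [TopologicalSpace M] (N : ℕ) (b : ℕ → ℕ)
    (h : ∀ n ≤ N, ((b n : ℕ) : Cardinal.{0}) ≤ Module.rank (ZMod 2) (Cohomology M n)) :
    ((∑ n ∈ Finset.range (N + 1), b n : ℕ) : Cardinal.{0}) ≤ totalBetti M := by
  have h1 : Cardinal.sum (fun n : ℕ => ((if n ≤ N then b n else 0 : ℕ) : Cardinal.{0})) ≤
      totalBetti M := by
    refine Cardinal.sum_le_sum _ _ fun n => ?_
    split_ifs with hn
    · exact h n hn
    · simp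
  refine le_trans ?_ h1
  have h2 : Cardinal.sum (fun n : ℕ => ((if n ≤ N then b n else 0 : ℕ) : Cardinal.{0})) =
      #((n : ℕ) × Fin (if n ≤ N then b n else 0)) := by
    rw [Cardinal.mk_sigma]
    congr 1
    funext n
    rw [Cardinal.mk_fin]
  rw [h2]
  have h3 : ((∑ n ∈ Finset.range (N + 1), b n : ℕ) : Cardinal.{0}) =
      #((n : Fin (N + 1)) × Fin (b n)) := by
    rw [Cardinal.mk_fintype, Fintype.card_sigma]
    congr 1
    simp only [Fintype.card_fin]
    rw [Fin.sum_univ_eq_sum_range b (N + 1)]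
  rw [h3]
  refine Cardinal.mk_le_of_injective
    (f := fun x : (n : Fin (N + 1)) × Fin (b n) =>
      (⟨x.1, ⟨x.2, by
        have := x.1.2
        rw [if_pos (by omega)]
        exact x.2.2⟩⟩ : (n : ℕ) × Fin (if n ≤ N then b n else 0))) ?_
  rintro ⟨a, b⟩ ⟨a', b'⟩ hab
  simp only [Sigma.mk.injEq] at hab
  obtain ⟨h5, h6⟩ := hab
  have h7 : a = a' := Fin.ext h5
  subst h7
  have h8 : b = b' := by
    apply Fin.ext
    have := eq_of_heq h6
    simpa using congrArg Fin.val this
  rw [h8]

theorem le_totalBetti_of_frames (hq : IsAddQuotientCoveringMap q (Gp r)) {ε : X → Gp r}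
    (hε : ∀ g x, ε (g +ᵥ x) = g + ε x) {N : ℕ} (Φ : FramesG N q ε) :
    (((r + 1).multichoose N : ℕ) : Cardinal.{0}) ≤ totalBetti M := by
  rw [← sum_multichoose]
  exact le_totalBettiG N _ fun n hn => le_rank_of_framesG hq hε Φ n hn

end Pool.Agent.KS6_55.TW
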