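import Pool.Agent.KS6_55.TW.TwoLow
import Pool.Graph.R_pool_sql_team_seeded_47a924f7.T6.H39.TN.Tr

/-!
# The total Betti number is not bounded by a polynomial in the two-number
-/

set_option autoImplicit false

open scoped Cardinal
open Pool.Agent.T6.H39.TN (IsSmoothSubmanifold IsSymmetricSpace twoNumber Singular.totalBetti
  totalBetti_eq)

namespace Pool.Agent.KS6_55.TW

theorem multichoose_eq_choose (r N : ℕ) : (r + 1).multichoose N = (N + r).choose r := by
  rw [Nat.multichoose_eq, show r + 1 + N - 1 = N + r by omega]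
  exact Nat.choose_symm_add

theorem le_totalBetti_sing (r N : ℕ) :
    (((N + r).choose r : ℕ) : Cardinal.{0}) ≤ Singular.totalBetti (Sg r N) := by
  rw [totalBetti_eq, ← multichoose_eq_choose]
  exact le_totalBetti_Sg r N

theorem pow_le_factorial_mul_choose (r N : ℕ) : (N + 1) ^ r ≤ r.factorial * (N + r).choose r := by
  have h1 : (N + 1) ^ r ≤ (N + r).descFactorial r := by
    have := Nat.pow_sub_le_descFactorial (N + r) r
    rwa [show N + r + 1 - r = N + 1 by omega] at this
  rwa [Nat.descFactorial_eq_factorial_mul_choose] at h1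

theorem exists_large (c e : ℕ) : ∃ r N : ℕ, 1 ≤ r ∧ 1 ≤ N ∧
    c * (2 ^ (2 ^ r - 1 - r) * max (N + 1) (2 ^ r)) ^ e < (N + r).choose r := by
  set A := 2 ^ (2 ^ (e + 1) - 1 - (e + 1)) with hA
  set m := 2 ^ (e + 1) + c * A ^ e * (e + 1).factorial with hm
  have h2 : 2 ≤ 2 ^ (e + 1) := by
    calc 2 = 2 ^ 1 := by norm_num
      _ ≤ 2 ^ (e + 1) := Nat.pow_le_pow_right (by norm_num) (by omega)
  have hm2 : 2 ^ (e + 1) ≤ m := Nat.le_add_right _ _
  refine ⟨e + 1, m - 1, by omega, by omega, ?_⟩
  have hmN : m - 1 + 1 = m := by omega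
  rw [hmN, max_eq_left hm2, ← hA]
  have h3 := pow_le_factorial_mul_choose (e + 1) (m - 1)
  rw [hmN] at h3
  have hpos : 0 < m ^ e := by positivity
  have h4 : (e + 1).factorial * (c * (A * m) ^ e) < (e + 1).factorial *
      (m - 1 + (e + 1)).choose (e + 1) := by
    refine lt_of_lt_of_le ?_ h3
    rw [pow_succ m e, mul_pow]
    calc (e + 1).factorial * (c * (A ^ e * m ^ e))
        = m ^ e * (c * A ^ e * (e + 1).factorial) := by ring
      _ < m ^ e * m := by
        refine Nat.mul_lt_mul_of_pos_left ?_ hpos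
        omega
  exact Nat.lt_of_mul_lt_mul_left h4

end Pool.Agent.KS6_55.TW
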