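import Pool.Agent.KS6_55.TW.Low

/-!
# The quotient of a product of `2 ^ r - 1` spheres by `(ℤ/2)^r`
-/

set_option autoImplicit false

open Set Topology
open scoped RealInnerProductSpace
open Pool.Agent.T6.H39.TN (Ve Te tri inner_tri sg sg_zero sg_one zmod_cases sg_add sg_sq
  abs_sg sg_ne Sp norm_sp sgn sgn_coe sgn_zero sgn_add continuous_sgn exists_signs exists_sg
  tmul_signs dist_sgn bit bit_sgn ev uI continuous_uI uI_add uI_face uI_vertex Simplex face
  continuous_tri totalBetti)

namespace Pool.Agent.KS6_55.TW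

/-- The nonzero vectors of `(ℤ/2)^r`. -/
abbrev Kx (r : ℕ) : Type := {c : Gp r // c ≠ 0}

/-- The Euclidean space of the families of tensors of degree three, indexed by the pairs of
vectors of `(ℤ/2)^r`. -/
abbrev En (r N : ℕ) : Type := PiLp 2 fun _ : Gp r × Gp r => Te N

variable {r N : ℕ}

/-- A family of vectors `x c`, `c ≠ 0`, extended to `c = 0` by the first basis vector. -/
noncomputable def hat (x : Kx r → Ve N) (c : Gp r) : Ve N :=
  if h : c = 0 then ev 0 else x ⟨c, h⟩

theorem hat_zero (x : Kx r → Ve N) : hat x 0 = ev 0 := by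
  simp [hat]

theorem hat_coe (x : Kx r → Ve N) (c : Kx r) : hat x c.1 = x c := by
  simp [hat, c.2]

/-- The family of the decomposable tensors `x_a ⊗ x_b ⊗ x_{a+b}`, where `x_0` is the first
basis vector. -/
noncomputable def emb (x : Kx r → Ve N) : En r N :=
  WithLp.toLp 2 fun p => tri (hat x p.1) (hat x p.2) (hat x (p.1 + p.2))

theorem emb_apply (x : Kx r → Ve N) (p : Gp r × Gp r) :
    emb x p = tri (hat x p.1) (hat x p.2) (hat x (p.1 + p.2)) := rfl

theorem norm_ev (j : Fin (N + 1)) : ‖(ev j : Ve N)‖ = 1 := by simp [ev]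

theorem norm_hat {x : Kx r → Ve N} (hx : ∀ c, ‖x c‖ = 1) (c : Gp r) : ‖hat x c‖ = 1 := by
  unfold hat
  split_ifs
  · exact norm_ev 0
  · exact hx _

theorem sg_inj {a b : ZMod 2} (h : sg a = sg b) : a = b := by
  rcases zmod_cases a with rfl | rfl <;> rcases zmod_cases b with rfl | rfl
  · rfl
  · rw [sg_zero, sg_one] at h
    norm_num at h
  · rw [sg_zero, sg_one] at h
    norm_num at h
  · rfl

theorem dot_single (i : Fin r) (g : Gp r) : (Pi.single i 1 : Gp r) ⬝ᵥ g = g i := by
  rw [single_dotProduct, one_mul]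

/-- An additive function on `(ℤ/2)^r` is the pairing with a vector. -/
theorem exists_dot (s : Gp r → ZMod 2) (hs : ∀ a b, s a + s b + s (a + b) = 0) :
    ∃ g : Gp r, ∀ c, s c = c ⬝ᵥ g := by
  have key : ∀ x y z : ZMod 2, x + y + z = 0 → z = x + y := by decide
  have h0 : s 0 = 0 := by
    have h1 := hs 0 0
    rw [add_zero, zadd_self, zero_add] at h1
    exact h1
  let f : Gp r →+ ZMod 2 :=
    { toFun := s
      map_zero' := h0
      map_add' := fun a b => key _ _ _ (hs a b) }
  let F : Gp r →ₗ[ZMod 2] ZMod 2 := f.toZModLinearMap 2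
  refine ⟨fun i => s (fun j => if i = j then 1 else 0), fun c => ?_⟩
  have h1 : F c = ∑ i, c i • F fun j => if i = j then 1 else 0 :=
    LinearMap.pi_apply_eq_sum_univ F c
  exact h1

theorem eq_of_dot {g h : Gp r} (H : ∀ c : Kx r, c.1 ⬝ᵥ g = c.1 ⬝ᵥ h) : g = h := by
  funext i
  have h1 := H ⟨Pi.single i 1, by
    intro h0
    have := congrFun h0 i
    simp at this⟩
  simpa only [dot_single] using h1

/-- Families of unit vectors with the same tensors differ by signs from `(ℤ/2)^r`. -/
theorem emb_signs {x y : Kx r → Ve N} (hx : ∀ c, ‖x c‖ = 1) (hy : ∀ c, ‖y c‖ = 1)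
    (h : emb x = emb y) : ∃ g : Gp r, ∀ c : Kx r, y c = sg (c.1 ⬝ᵥ g) • x c := by
  have h1 : ∀ a b : Gp r, ∃ u v : ZMod 2, hat y a = sg u • hat x a ∧ hat y b = sg v • hat x b ∧
      hat y (a + b) = sg (u + v) • hat x (a + b) := by
    intro a b
    have h2 : emb x (a, b) = emb y (a, b) := by rw [h]
    rw [emb_apply, emb_apply] at h2
    obtain ⟨g, e1, e2, e3⟩ := exists_signs (norm_hat hx _) (norm_hat hx _) (norm_hat hx _)
      (norm_hat hy _) (norm_hat hy _) (norm_hat hy _) h2
    exact ⟨g.1, g.2, e1, e2, e3⟩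
  have h2 : ∀ c : Gp r, ∃ u : ZMod 2, hat y c = sg u • hat x c := by
    intro c
    obtain ⟨u, v, e, -, -⟩ := h1 c c
    exact ⟨u, e⟩
  choose s hs using h2
  have huniq : ∀ (c : Gp r) (u v : ZMod 2), sg u • hat x c = sg v • hat x c → u = v := by
    intro c u v huv
    have hne : hat x c ≠ 0 := by
      intro h0
      have := norm_hat hx c
      rw [h0, norm_zero] at this
      exact zero_ne_one this
    exact sg_inj (smul_left_injective ℝ hne huv)
  obtain ⟨g, hg⟩ := exists_dot s (by
    intro a b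
    obtain ⟨u, v, e1, e2, e3⟩ := h1 a b
    have f1 : s a = u := huniq a _ _ (by rw [← hs, e1])
    have f2 : s b = v := huniq b _ _ (by rw [← hs, e2])
    have f3 : s (a + b) = u + v := huniq (a + b) _ _ (by rw [← hs, e3])
    rw [f1, f2, f3]
    exact zadd_self _)
  refine ⟨g, fun c => ?_⟩
  have h3 := hs c.1
  rw [hat_coe, hat_coe, hg] at h3
  exact h3

theorem hat_sg (g : Gp r) (x : Kx r → Ve N) (c : Gp r) :
    hat (fun c : Kx r => sg (c.1 ⬝ᵥ g) • x c) c = sg (c ⬝ᵥ g) • hat x c := by
  unfold hat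
  split_ifs with h
  · rw [h, zero_dotProduct, sg_zero, one_smul]
  · rfl

theorem emb_sg (g : Gp r) (x : Kx r → Ve N) :
    emb (fun c : Kx r => sg (c.1 ⬝ᵥ g) • x c) = emb x := by
  refine PiLp.ext fun p => ?_
  rw [emb_apply, emb_apply, hat_sg, hat_sg, hat_sg, add_dotProduct]
  exact tmul_signs (p.1 ⬝ᵥ g, p.2 ⬝ᵥ g) _ _ _

/-- The space: the families of the tensors `x_a ⊗ x_b ⊗ x_{a+b}` for all families of unit vectors
`x_c`, `c ≠ 0`. -/
def Sg (r N : ℕ) : Set (En r N) := {T | ∃ x : Kx r → Ve N, (∀ c, ‖x c‖ = 1) ∧ T = emb x}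

/-- The product of the spheres. -/
abbrev Xp (r N : ℕ) : Type := Kx r → Sp N

noncomputable instance : AddAction (Gp r) (Xp r N) where
  vadd g x := fun c => sgn (c.1 ⬝ᵥ g) (x c)
  zero_vadd x := by
    funext c
    change sgn (c.1 ⬝ᵥ (0 : Gp r)) (x c) = x c
    rw [dotProduct_zero, sgn_zero]
  add_vadd g h x := by
    funext c
    change sgn (c.1 ⬝ᵥ (g + h)) (x c) = sgn (c.1 ⬝ᵥ g) (sgn (c.1 ⬝ᵥ h) (x c))
    rw [dotProduct_add, sgn_add]

theorem vadd_apply (g : Gp r) (x : Xp r N) (c : Kx r) : (g +ᵥ x) c = sgn (c.1 ⬝ᵥ g) (x c) := rfl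

theorem continuous_hat (c : Gp r) :
    Continuous fun x : Xp r N => hat (fun c => (x c : Ve N)) c := by
  unfold hat
  split_ifs with h
  · exact continuous_const
  · exact continuous_subtype_val.comp (continuous_apply (⟨c, h⟩ : Kx r))

/-- The covering map. -/
noncomputable def qm (r N : ℕ) : C(Xp r N, Sg r N) :=
  ⟨fun x => ⟨emb fun c => (x c : Ve N), fun c => (x c : Ve N), fun _ => norm_sp _, rfl⟩, by
    refine Continuous.subtype_mk ?_ _
    refine (PiLp.continuous_toLp 2 _).comp (continuous_pi fun p => ?_)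
    exact continuous_tri.comp ((continuous_hat p.1).prodMk
      ((continuous_hat p.2).prodMk (continuous_hat (p.1 + p.2))))⟩

theorem qm_coe (x : Xp r N) : (qm r N x : En r N) = emb fun c => (x c : Ve N) := rfl

theorem qm_vadd (g : Gp r) (x : Xp r N) : qm r N (g +ᵥ x) = qm r N x := by
  apply Subtype.ext
  rw [qm_coe, qm_coe]
  exact emb_sg g fun c => (x c : Ve N)

theorem isQuotientMap_qm : IsQuotientMap (qm r N) := by
  have hsurj : Function.Surjective (qm r N) := by
    rintro ⟨_, x, hx, rfl⟩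
    exact ⟨fun c => ⟨x c, by simpa using hx c⟩, rfl⟩
  have hclosed : IsClosedMap (qm r N) := (qm r N).continuous.isClosedMap
  exact hclosed.isQuotientMap (qm r N).continuous hsurj

theorem isCov : IsAddQuotientCoveringMap (qm r N) (Gp r) where
  toIsQuotientMap := isQuotientMap_qm
  continuous_const_vadd g := by
    refine continuous_pi fun c => ?_
    exact (continuous_sgn _).comp (continuous_apply c)
  apply_eq_iff_mem_orbit {e₁ e₂} := by
    constructor
    · intro h
      have h' := congrArg (Subtype.val) h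
      rw [qm_coe, qm_coe] at h'
      obtain ⟨g, hg⟩ := emb_signs (fun _ => norm_sp _) (fun _ => norm_sp _) h'.symm
      refine ⟨g, ?_⟩
      change g +ᵥ e₂ = e₁
      funext c
      exact Subtype.ext (hg c).symm
    · rintro ⟨g, rfl⟩
      exact qm_vadd g e₂
  disjoint e := by
    refine ⟨{x | ∀ c, dist (x c) (e c) < 1}, ?_, ?_⟩
    · have h1 : {x : Xp r N | ∀ c, dist (x c) (e c) < 1} =
          ⋂ c : Kx r, {x : Xp r N | dist (x c) (e c) < 1} := by
        ext x
        simp
      rw [h1]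
      refine IsOpen.mem_nhds ?_ (by simp)
      exact isOpen_iInter_of_finite fun c =>
        isOpen_lt ((continuous_apply c).dist continuous_const) continuous_const
    · rintro g ⟨_, ⟨x, hx, rfl⟩, hx'⟩
      refine eq_of_dot fun c => ?_
      rw [dotProduct_zero]
      exact dist_sgn (e c) (hx c) (hx' c)

/-- the labels of the points of the covering space -/
noncomputable def labG (x : Xp r N) : Gp r := fun i => bit (x ⟨Pi.single i 1, by
  intro h0
  have := congrFun h0 i
  simp at this⟩)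

theorem labG_vadd (g : Gp r) (x : Xp r N) : labG (g +ᵥ x) = g + labG x := by
  funext i
  unfold labG
  rw [vadd_apply, bit_sgn, dot_single]
  rfl

/-- The frames. -/
noncomputable def framesG (r N : ℕ) : FramesG N (qm r N) labG where
  S I w := ⟨fun p c => uI I (fun l => c.1 ⬝ᵥ w l) p, continuous_pi fun c => continuous_uI _ _⟩
  face_eq I w i := by
    ext1 p
    funext c
    exact uI_face I (fun l => c.1 ⬝ᵥ w l) i p
  add_eq I g w := by
    ext1 p
    have h1 : (fun c : Kx r => uI I (fun l => c.1 ⬝ᵥ (g + w l)) p) =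
        g +ᵥ (fun c : Kx r => uI I (fun l => c.1 ⬝ᵥ w l) p : Xp r N) := by
      funext c
      rw [vadd_apply]
      have h2 : (fun l => c.1 ⬝ᵥ (g + w l)) = fun l => c.1 ⬝ᵥ g + c.1 ⬝ᵥ w l := by
        funext l
        rw [dotProduct_add]
      rw [h2, uI_add]
    change qm r N (fun c : Kx r => uI I (fun l => c.1 ⬝ᵥ (g + w l)) p) =
      qm r N (fun c : Kx r => uI I (fun l => c.1 ⬝ᵥ w l) p)
    rw [h1, qm_vadd]
  label_eq I w l := by
    funext i
    change bit (uI I (fun l => (Pi.single i 1 : Gp r) ⬝ᵥ w l) (stdSimplex.vertex l)) = w l i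
    rw [uI_vertex, dot_single]

/-- **The lower bound for the total mod 2 Betti number.** -/
theorem le_totalBetti_Sg (r N : ℕ) :
    (((r + 1).multichoose N : ℕ) : Cardinal.{0}) ≤ totalBetti (Sg r N) :=
  le_totalBetti_of_frames isCov labG_vadd (framesG r N)

end Pool.Agent.KS6_55.TW
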