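import Pool.Agent.KS6_55.TW.Chart

/-!
# The two-number of the space `Sg r N`: upper bound
-/

set_option autoImplicit false

open Set Topology
open scoped RealInnerProductSpace Cardinal
open Pool.Agent.T6.H39.TN (Ve sg sg_zero sg_one zmod_cases sg_add sg_sq abs_sg sg_ne Rf
  Par par_or_orth twoNumber IsAntipodal)

namespace Pool.Agent.KS6_55.TW

variable {r N : ℕ}

theorem eq_of_add_zero {a b : Gp r} (h : a + b = 0) : a = b := by
  have key : ∀ x y : ZMod 2, x + y = 0 → x = y := by decide
  funext i
  exact key _ _ (congrFun h i)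

theorem eq_add_of_add {a b c : Gp r} (h : a + b = c) : b = a + c := by
  have key : ∀ x y z : ZMod 2, x + y = z → y = x + z := by decide
  funext i
  exact key _ _ _ (congrFun h i)

/-- If every vector orthogonal to `a` is orthogonal to `b` then `b = 0` or `b = a`. -/
theorem eq_zero_or_eq {a b : Gp r} (h : ∀ c : Gp r, c ⬝ᵥ a = 0 → c ⬝ᵥ b = 0) :
    b = 0 ∨ b = a := by
  by_cases hb : b = 0
  · exact Or.inl hb
  right
  have k1 : ∀ x : ZMod 2, x ≠ 0 → x = 1 := by decide
  obtain ⟨j, hj⟩ : ∃ j, b j ≠ 0 := by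
    by_contra hcon
    push Not at hcon
    exact hb (funext hcon)
  have hsub : ∀ i, b i ≠ 0 → a i = 1 := by
    intro i hi
    refine k1 _ fun h0 => hi ?_
    have h1 := h (Pi.single i 1) (by rw [dot_single, h0])
    rwa [dot_single] at h1
  by_contra hne
  obtain ⟨i, hi⟩ : ∃ i, b i ≠ a i := by
    by_contra hcon
    push Not at hcon
    exact hne (funext hcon)
  have hbi : b i = 0 := by
    by_contra h0
    exact hi (by rw [k1 _ h0, hsub i h0])
  have hai : a i = 1 := by
    refine k1 _ fun h0 => hi ?_
    rw [hbi, h0]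
  have h1 := h (Pi.single i 1 + Pi.single j 1) (by
    rw [add_dotProduct, dot_single, dot_single, hai, hsub j hj]
    decide)
  rw [add_dotProduct, dot_single, dot_single, hbi, zero_add] at h1
  exact hj h1

/-- Families of unit vectors which are pairwise parallel or orthogonal in each place, with
a difference in each pair: there are at most `max (N + 1) (2 ^ r)` of them. -/
theorem card_rep {ι : Type} [Fintype ι] (x : ι → Kx r → Ve N) (hx : ∀ i c, ‖x i c‖ = 1)
    (γ : ι → ι → Gp r)
    (hγ : ∀ i j (c : Kx r), (c.1 ⬝ᵥ γ i j = 0 ∧ Par (x i c) (x j c)) ∨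
      (c.1 ⬝ᵥ γ i j = 1 ∧ ⟪x i c, x j c⟫ = 0))
    (hne : ∀ i j, i ≠ j → γ i j ≠ 0) : Fintype.card ι ≤ max (N + 1) (2 ^ r) := by
  classical
  rcases isEmpty_or_nonempty ι with hι | ⟨⟨i0⟩⟩
  · rw [Fintype.card_eq_zero]
    exact Nat.zero_le _
  have h01 : (0 : ZMod 2) ≠ 1 := by decide
  -- the parallel places
  have hpar : ∀ i j (c : Kx r), c.1 ⬝ᵥ γ i j = 0 ↔ Par (x i c) (x j c) := by
    intro i j c
    constructor
    · intro h
      rcases hγ i j c with h1 | h1
      · exact h1.2
      · rw [h] at h1
        exact absurd h1.1 h01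
    · intro h
      rcases hγ i j c with h1 | h1
      · exact h1.1
      · exact (Par.not_orth (hx i c) h h1.2).elim
  have k2 : ∀ u v : ZMod 2, (u = 0 ↔ v = 0) → u = v := by decide
  have hT : ∀ i j k (c : Gp r), c ⬝ᵥ γ i j = 0 → c ⬝ᵥ γ i k = c ⬝ᵥ γ j k := by
    intro i j k c hc
    by_cases h0 : c = 0
    · rw [h0, zero_dotProduct, zero_dotProduct]
    refine k2 _ _ ?_
    rw [hpar i k ⟨c, h0⟩, hpar j k ⟨c, h0⟩]
    have h1 := (hpar i j ⟨c, h0⟩).1 hc
    exact ⟨fun h => h1.symm.trans h, fun h => h1.trans h⟩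
  have hT' : ∀ i j k, γ i k + γ j k = 0 ∨ γ i k + γ j k = γ i j := by
    intro i j k
    refine eq_zero_or_eq fun c hc => ?_
    rw [dotProduct_add, hT i j k c hc]
    exact zadd_self _
  have hS : ∀ i j, γ i j = γ j i := by
    intro i j
    refine eq_of_dot fun c => k2 _ _ ?_
    rw [hpar, hpar]
    exact ⟨fun h => h.symm, fun h => h.symm⟩
  have hself : ∀ i, γ i i = 0 := by
    intro i
    refine eq_of_dot fun c => ?_
    rw [dotProduct_zero, hpar]
    exact ⟨0, by rw [sg_zero, one_smul]⟩
  by_cases hinj : Function.Injective (γ i0)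
  · refine le_trans (Fintype.card_le_of_injective _ hinj) ?_
    simp only [Fintype.card_fun, ZMod.card, Fintype.card_fin]
    exact le_max_right _ _
  · -- there is a pair with the same difference
    obtain ⟨y, z, hyz, hne'⟩ : ∃ y z, γ i0 y = γ i0 z ∧ y ≠ z := by
      by_contra hcon
      push Not at hcon
      exact hinj fun y z h => hcon y z h
    set g := γ i0 y with hg
    have hg0 : g ≠ 0 := by
      intro h0
      have h1 : y = i0 := by
        by_contra h
        exact hne i0 y (Ne.symm h) h0
      have h2 : z = i0 := by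
        by_contra h
        exact hne i0 z (Ne.symm h) (by rw [← hyz]; exact h0)
      exact hne' (h1.trans h2.symm)
    have hyzg : γ y z = g := by
      have h1 := hne y z hne'
      rcases hT' i0 y z with h | h
      · have h2 := eq_add_of_add h
        rw [add_zero, ← hyz] at h2
        exact h2
      · have h2 := eq_add_of_add h
        rw [← hyz, ← hg, Gp.add_self] at h2
        exact absurd h2 h1
    have hw : ∀ w, w ≠ i0 → γ i0 w = g := by
      intro w hw
      by_contra hwg
      have hh0 : γ i0 w ≠ 0 := hne i0 w (Ne.symm hw)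
      -- the differences `γ u w` for `u` with `γ i0 u = g`
      have key : ∀ u, γ i0 u = g → γ u w = γ i0 w + g := by
        intro u hu
        have a1 : γ u w = γ i0 w ∨ γ u w = γ i0 w + g := by
          rcases hT' i0 u w with h | h
          · left
            have h2 := eq_add_of_add h
            rwa [add_zero] at h2
          · right
            have h2 := eq_add_of_add h
            rwa [hu] at h2
        have a2 : γ u w = g ∨ γ u w = g + γ i0 w := by
          rw [hS u w]
          rcases hT' i0 w u with h | h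
          · left
            have h2 := eq_add_of_add h
            rwa [add_zero, hu] at h2
          · right
            have h2 := eq_add_of_add h
            rwa [hu] at h2
        rcases a1 with a1 | a1
        · rcases a2 with a2 | a2
          · exact absurd (a1.symm.trans a2) hwg
          · exfalso
            have h3 : g + γ i0 w = γ i0 w := a2.symm.trans a1
            exact hg0 (by simpa using h3)
        · exact a1
      have e1 := key y hg.symm
      have e2 := key z hyz.symm
      rcases hT' y w z with h | h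
      · rw [hyzg, hS w z, e2] at h
        have h3 := eq_add_of_add h
        rw [add_zero] at h3
        exact hh0 (by simpa using h3)
      · rw [hyzg, hS w z, e2, e1] at h
        have h3 := eq_add_of_add h
        have h4 : g + (γ i0 w + g) = γ i0 w := by
          rw [add_comm (γ i0 w) g, ← add_assoc, Gp.add_self, zero_add]
        rw [h4] at h3
        exact hg0 (by simpa using h3)
    have hall : ∀ u w, u ≠ w → γ u w = g := by
      intro u w huw
      by_cases hu : u = i0
      · subst hu
        exact hw w (Ne.symm huw)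
      by_cases hw' : w = i0
      · subst hw'
        rw [hS]
        exact hw u hu
      have h1 := hne u w huw
      rcases hT' i0 u w with h | h
      · have h2 := eq_add_of_add h
        rw [add_zero, hw w hw'] at h2
        exact h2
      · have h2 := eq_add_of_add h
        rw [hw w hw', hw u hu, Gp.add_self] at h2
        exact absurd h2 h1
    obtain ⟨j, hj⟩ : ∃ j, g j ≠ 0 := by
      by_contra hcon
      push Not at hcon
      exact hg0 (funext hcon)
    let c : Kx r := ⟨Pi.single j 1, by
      intro h0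
      have := congrFun h0 j
      simp at this⟩
    have hort : Orthonormal ℝ fun i => x i c := by
      refine ⟨fun i => hx i c, fun u w huw => ?_⟩
      rcases hγ u w c with h | h
      · exfalso
        have h1 := h.1
        rw [hall u w huw, dot_single] at h1
        exact hj h1
      · exact h.2
    refine le_trans ?_ (le_max_left _ _)
    have := hort.linearIndependent.fintype_card_le_finrank
    simpa using this

/-- The family of unit vectors chosen for a point. -/
noncomputable def xs (p : Sg r N) : Kx r → Ve N := p.2.choose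

theorem norm_xs (p : Sg r N) (c : Kx r) : ‖xs p c‖ = 1 := p.2.choose_spec.1 c

theorem emb_xs (p : Sg r N) : (p : En r N) = emb (xs p) := p.2.choose_spec.2

theorem symG_eq (p : Sg r N) : symG r N p = SfG (xs p) := rfl

/-- the relation of the coordinates of a pair of points fixed by each other's symmetry -/
theorem exists_gamma {p q : Sg r N} (h : symG r N p (q : En r N) = q) :
    ∃ g : Gp r, ∀ c : Kx r, (c.1 ⬝ᵥ g = 0 ∧ Par (xs p c) (xs q c)) ∨
      (c.1 ⬝ᵥ g = 1 ∧ ⟪xs p c, xs q c⟫ = 0) := by
  rw [symG_eq, emb_xs q, SfG_emb] at h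
  obtain ⟨g, hg⟩ := emb_signs (fun c => by rw [LinearIsometryEquiv.norm_map, norm_xs])
    (norm_xs q) h
  exact ⟨g, fun c => par_or_orth (norm_xs p c) (norm_xs q c) (hg c)⟩

/-- A set of points with parallel families. -/
theorem fibre_card (s : Finset (Sg r N))
    (hs : ∀ p ∈ s, ∀ q ∈ s, ∀ c, Par (xs p c) (xs q c)) : s.card * 2 ^ r ≤ 2 ^ (2 ^ r - 1) := by
  classical
  rcases s.eq_empty_or_nonempty with rfl | ⟨p0, hp0⟩
  · simp
  have h1 : ∀ p : Sg r N, ∃ σ : Kx r → ZMod 2, p ∈ s → ∀ c, xs p c = sg (σ c) • xs p0 c := by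
    intro p
    by_cases hp : p ∈ s
    · have h2 := fun c => hs p0 hp0 p hp c
      choose σ hσ using h2
      exact ⟨σ, fun _ => hσ⟩
    · exact ⟨0, fun h => absurd h hp⟩
  choose σ hσ using h1
  have hcard : (s ×ˢ (Finset.univ : Finset (Gp r))).card = s.card * 2 ^ r := by
    rw [Finset.card_product, Finset.card_univ]
    simp only [Fintype.card_fun, ZMod.card, Fintype.card_fin]
  have hcard' : (Finset.univ : Finset (Kx r → ZMod 2)).card = 2 ^ (2 ^ r - 1) := by
    rw [Finset.card_univ, Fintype.card_fun, ZMod.card, card_Kx]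
  rw [← hcard, ← hcard']
  refine Finset.card_le_card_of_injOn (fun x => fun c : Kx r => σ x.1 c + c.1 ⬝ᵥ x.2)
    (fun _ _ => Finset.mem_univ _) ?_
  rintro ⟨p, g⟩ hp ⟨q, h⟩ hq heq
  have hp' : p ∈ s := (Finset.mem_product.1 hp).1
  have hq' : q ∈ s := (Finset.mem_product.1 hq).1
  have e1 : ∀ c : Kx r, σ p c + c.1 ⬝ᵥ g = σ q c + c.1 ⬝ᵥ h := fun c => congrFun heq c
  have k1 : ∀ a b c d : ZMod 2, a + b = c + d → a = (b + d) + c := by decide
  have hpq : p = q := by
    apply Subtype.ext
    rw [emb_xs p, emb_xs q, ← emb_sg (g + h) (xs q)]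
    congr 1
    funext c
    rw [hσ p hp' c, hσ q hq' c, smul_smul, ← sg_add, dotProduct_add, ← k1 _ _ _ _ (e1 c)]
  subst hpq
  have hgh : g = h := eq_of_dot fun c => by simpa using e1 c
  rw [hgh]

/-- **The number of points of a finite antipodal set.** -/
theorem card_antipodal (s : Finset (Sg r N))
    (hA : ∀ p ∈ s, ∀ q ∈ s, symG r N p (q : En r N) = q) :
    s.card * 2 ^ r ≤ 2 ^ (2 ^ r - 1) * max (N + 1) (2 ^ r) := by
  classical
  let f : Sg r N → (Kx r → Submodule ℝ (Ve N)) := fun p c => ℝ ∙ xs p c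
  have hline : ∀ p q : Sg r N, f p = f q → ∀ c, Par (xs p c) (xs q c) := by
    intro p q h c
    have h1 : xs q c ∈ (ℝ ∙ xs p c) := by
      have h2 : (ℝ ∙ xs p c) = (ℝ ∙ xs q c) := congrFun h c
      rw [h2]
      exact Submodule.mem_span_singleton_self _
    obtain ⟨a, ha⟩ := Submodule.mem_span_singleton.1 h1
    have h2 : |a| = 1 := by
      have h3 : ‖a • xs p c‖ = 1 := by rw [ha, norm_xs]
      rwa [norm_smul, norm_xs, mul_one, Real.norm_eq_abs] at h3
    obtain ⟨b, hb⟩ := Pool.Agent.T6.H39.TN.exists_sg h2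
    exact ⟨b, by rw [← hb, ha]⟩
  have hline' : ∀ p q : Sg r N, (∀ c, Par (xs p c) (xs q c)) → f p = f q := by
    intro p q h
    funext c
    obtain ⟨a, ha⟩ := h c
    change (ℝ ∙ xs p c) = (ℝ ∙ xs q c)
    rw [ha]
    exact (Submodule.span_singleton_smul_eq (isUnit_iff_ne_zero.2 (sg_ne a)) _).symm
  -- the number of classes
  have himg : (s.image f).card ≤ max (N + 1) (2 ^ r) := by
    have hpre : ∀ b : s.image f, ∃ p : Sg r N, p ∈ s ∧ f p = b := by
      intro b
      obtain ⟨p, hp, hp'⟩ := Finset.mem_image.1 b.2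
      exact ⟨p, hp, hp'⟩
    choose t ht1 ht2 using hpre
    have hγ : ∀ b b' : s.image f, ∃ g : Gp r, ∀ c : Kx r,
        (c.1 ⬝ᵥ g = 0 ∧ Par (xs (t b) c) (xs (t b') c)) ∨
        (c.1 ⬝ᵥ g = 1 ∧ ⟪xs (t b) c, xs (t b') c⟫ = 0) := fun b b' =>
      exists_gamma (hA _ (ht1 b) _ (ht1 b'))
    choose γ hγ using hγ
    have h1 := card_rep (fun b : s.image f => xs (t b)) (fun b c => norm_xs (t b) c) γ hγ (by
      intro b b' hbb' h0
      apply hbb'
      apply Subtype.ext
      rw [← ht2 b, ← ht2 b']
      refine hline' _ _ fun c => ?_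
      rcases hγ b b' c with h | h
      · exact h.2
      · have h2 := h.1
        rw [h0, dotProduct_zero] at h2
        exact absurd h2 (by decide))
    rwa [Fintype.card_coe] at h1
  rw [Finset.card_eq_sum_card_image f s, Finset.sum_mul]
  calc ∑ b ∈ s.image f, (s.filter fun a => f a = b).card * 2 ^ r
      ≤ ∑ _b ∈ s.image f, 2 ^ (2 ^ r - 1) := by
        refine Finset.sum_le_sum fun b _ => fibre_card _ fun p hp q hq => ?_
        exact hline p q (((Finset.mem_filter.1 hp).2).trans ((Finset.mem_filter.1 hq).2).symm)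
    _ = (s.image f).card * 2 ^ (2 ^ r - 1) := by rw [Finset.sum_const, smul_eq_mul]
    _ ≤ max (N + 1) (2 ^ r) * 2 ^ (2 ^ r - 1) := Nat.mul_le_mul_right _ himg
    _ = _ := mul_comm _ _

theorem pow_split (r : ℕ) : 2 ^ (2 ^ r - 1) = 2 ^ (2 ^ r - 1 - r) * 2 ^ r := by
  rw [← pow_add]
  congr 1
  have : r < 2 ^ r := Nat.lt_two_pow_self
  omega

/-- **Upper bound for the two-number.** -/
theorem twoNumber_le (r N : ℕ) : twoNumber (symG r N) ≤
    ((2 ^ (2 ^ r - 1 - r) * max (N + 1) (2 ^ r) : ℕ) : Cardinal) := by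
  refine ciSup_le' fun A => ?_
  obtain ⟨A, hA⟩ := A
  change #A ≤ _
  by_contra hcon
  rw [not_le] at hcon
  set K := 2 ^ (2 ^ r - 1 - r) * max (N + 1) (2 ^ r) with hK
  have h1 : ((K + 1 : ℕ) : Cardinal) ≤ #A := by
    have := Order.succ_le_of_lt hcon
    rw [Cardinal.succ_natCast] at this
    exact_mod_cast this
  obtain ⟨s, hs⟩ := Cardinal.exists_finset_le_card _ _ h1
  have h2 := card_antipodal (s.map ⟨Subtype.val, Subtype.val_injective⟩) (by
    intro p hp q hq
    obtain ⟨p', -, rfl⟩ := Finset.mem_map.1 hp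
    obtain ⟨q', -, rfl⟩ := Finset.mem_map.1 hq
    exact hA _ p'.2 _ q'.2)
  rw [Finset.card_map, pow_split, mul_right_comm] at h2
  have h3 : s.card ≤ K := Nat.le_of_mul_le_mul_right h2 (by positivity)
  omega

end Pool.Agent.KS6_55.TW
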