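import Pool.Agent.KS6_55.TW.Two

/-!
# The two-number of the space `Sg r N`: exact value
-/

set_option autoImplicit false

open Set Topology
open scoped RealInnerProductSpace Cardinal
open Pool.Agent.T6.H39.TN (Ve sg sg_zero sg_one zmod_cases sg_add sg_sq abs_sg sg_ne Rf Rf_self
  Rf_orth Par ev twoNumber IsAntipodal)

namespace Pool.Agent.KS6_55.TW

variable {r N : ℕ}

theorem Rf_sg (a : ZMod 2) (x y : Ve N) : Rf (sg a • x) y = Rf x y := by
  have h : (ℝ ∙ (sg a • x)) = (ℝ ∙ x) :=
    Submodule.span_singleton_smul_eq (isUnit_iff_ne_zero.2 (sg_ne a)) _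
  unfold Rf
  simp only [h]

/-- The points of the antipodal set. -/
noncomputable def pt {J : Type} (y : J → Kx r → Ve N) (hy : ∀ j c, ‖y j c‖ = 1)
    (x : J × (Kx r → ZMod 2)) : Sg r N :=
  ⟨emb fun c => sg (x.2 c) • y x.1 c, _, fun c => by
    rw [norm_smul, Real.norm_eq_abs, abs_sg, hy, mul_one], rfl⟩

theorem pt_coe {J : Type} (y : J → Kx r → Ve N) (hy : ∀ j c, ‖y j c‖ = 1)
    (x : J × (Kx r → ZMod 2)) : (pt y hy x : En r N) = emb fun c => sg (x.2 c) • y x.1 c := rfl

theorem pt_antipodal {J : Type} (y : J → Kx r → Ve N) (hy : ∀ j c, ‖y j c‖ = 1)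
    (γ : J → J → Gp r) (h0 : ∀ i j (c : Kx r), c.1 ⬝ᵥ γ i j = 0 → y i c = y j c)
    (h1 : ∀ i j (c : Kx r), c.1 ⬝ᵥ γ i j = 1 → ⟪y i c, y j c⟫ = 0)
    (p q : J × (Kx r → ZMod 2)) :
    symG r N (pt y hy p) (pt y hy q : En r N) = pt y hy q := by
  have hxs : ∃ s : Kx r → ZMod 2, ∀ c, xs (pt y hy p) c = sg (s c) • y p.1 c := by
    have h2 := emb_xs (pt y hy p)
    rw [pt_coe] at h2
    obtain ⟨g, hg⟩ := emb_signs (fun c => by
      rw [norm_smul, Real.norm_eq_abs, abs_sg, hy, mul_one]) (norm_xs (pt y hy p)) h2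
    exact ⟨fun c => c.1 ⬝ᵥ g + p.2 c, fun c => by rw [hg c, smul_smul, ← sg_add]⟩
  obtain ⟨s, hs⟩ := hxs
  rw [symG_eq, pt_coe, SfG_emb]
  have h3 : (fun c => Rf (xs (pt y hy p) c) (sg (q.2 c) • y q.1 c)) =
      fun c : Kx r => sg (c.1 ⬝ᵥ γ p.1 q.1) • (sg (q.2 c) • y q.1 c) := by
    funext c
    rw [hs c, Rf_sg, map_smul, smul_comm]
    congr 1
    rcases zmod_cases (c.1 ⬝ᵥ γ p.1 q.1) with h | h
    · rw [h, sg_zero, one_smul, h0 _ _ _ h, Rf_self]
    · rw [h, sg_one, neg_one_smul]
      exact Rf_orth _ (Submodule.mem_orthogonal_singleton_iff_inner_right.2 (h1 _ _ _ h))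
  rw [h3, emb_sg]

/-- A lower bound for the two-number. -/
theorem le_twoNumber {J : Type} [Fintype J] (y : J → Kx r → Ve N) (hy : ∀ j c, ‖y j c‖ = 1)
    (γ : J → J → Gp r) (h0 : ∀ i j (c : Kx r), c.1 ⬝ᵥ γ i j = 0 → y i c = y j c)
    (h1 : ∀ i j (c : Kx r), c.1 ⬝ᵥ γ i j = 1 → ⟪y i c, y j c⟫ = 0)
    (hne : ∀ i j, i ≠ j → γ i j ≠ 0) :
    ((2 ^ (2 ^ r - 1 - r) * Fintype.card J : ℕ) : Cardinal) ≤ twoNumber (symG r N) := by
  classical
  let S : Finset (Sg r N) := Finset.univ.image (pt y hy)
  have hS : IsAntipodal (symG r N) (S : Set (Sg r N)) := by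
    intro p hp q hq
    obtain ⟨p, -, rfl⟩ := Finset.mem_image.1 (Finset.mem_coe.1 hp)
    obtain ⟨q, -, rfl⟩ := Finset.mem_image.1 (Finset.mem_coe.1 hq)
    exact pt_antipodal y hy γ h0 h1 p q
  have hle : #(S : Set (Sg r N)) ≤ twoNumber (symG r N) :=
    le_ciSup (f := fun A : {A : Set (Sg r N) // IsAntipodal (symG r N) A} => #A.1)
      (Cardinal.bddAbove_range _) ⟨(S : Set (Sg r N)), hS⟩
  refine le_trans ?_ hle
  have hfib : ∀ b ∈ S, (Finset.univ.filter fun a => pt y hy a = b).card ≤ 2 ^ r := by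
    intro b hb
    obtain ⟨⟨i, σ⟩, -, rfl⟩ := Finset.mem_image.1 hb
    have hsub : (Finset.univ.filter fun a => pt y hy a = pt y hy (i, σ)) ⊆
        (Finset.univ : Finset (Gp r)).image fun g => (i, fun c : Kx r => c.1 ⬝ᵥ g + σ c) := by
      rintro ⟨j, τ⟩ h
      have h2 := (Finset.mem_filter.1 h).2
      have h3 := congrArg Subtype.val h2
      rw [pt_coe, pt_coe] at h3
      obtain ⟨g, hg⟩ := emb_signs (fun c => by
        rw [norm_smul, Real.norm_eq_abs, abs_sg, hy, mul_one]) (fun c => by
        rw [norm_smul, Real.norm_eq_abs, abs_sg, hy, mul_one]) h3.symm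
      have hg' : ∀ c : Kx r, sg (τ c) • y j c = sg (c.1 ⬝ᵥ g) • sg (σ c) • y i c := hg
      have hij : i = j := by
        by_contra hij
        have h4 := hne i j hij
        obtain ⟨l, hl⟩ : ∃ l, γ i j l ≠ 0 := by
          by_contra hcon
          push Not at hcon
          exact h4 (funext hcon)
        have k1 : ∀ x : ZMod 2, x ≠ 0 → x = 1 := by decide
        let c : Kx r := ⟨Pi.single l 1, by
          intro h0
          have := congrFun h0 l
          simp at this⟩
        have h5 := h1 i j c (by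
          change (Pi.single l 1 : Gp r) ⬝ᵥ γ i j = 1
          rw [dot_single]
          exact k1 _ hl)
        have h6 : Par (y i c) (y j c) := by
          refine ⟨τ c + (c.1 ⬝ᵥ g + σ c), ?_⟩
          rw [sg_add, sg_add, mul_smul, mul_smul, ← hg' c, smul_smul, sg_sq, one_smul]
        exact Par.not_orth (hy i c) h6 h5
      subst hij
      refine Finset.mem_image.2 ⟨g, Finset.mem_univ _, ?_⟩
      refine Prod.ext rfl ?_
      funext c
      have h4 := hg' c
      rw [smul_smul, ← sg_add] at h4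
      have hne0 : y i c ≠ 0 := by
        intro h0
        have := hy i c
        rw [h0, norm_zero] at this
        exact zero_ne_one this
      exact (sg_inj (smul_left_injective ℝ hne0 h4)).symm
    refine (Finset.card_le_card hsub).trans (Finset.card_image_le.trans ?_)
    rw [Finset.card_univ]
    simp only [Fintype.card_fun, ZMod.card, Fintype.card_fin, le_refl]
  have hcard := Finset.card_le_mul_card_image (Finset.univ : Finset (J × (Kx r → ZMod 2))) (2 ^ r)
    hfib
  have hcard' : (Finset.univ : Finset (J × (Kx r → ZMod 2))).card =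
      Fintype.card J * 2 ^ (2 ^ r - 1) := by
    rw [Finset.card_univ, Fintype.card_prod, Fintype.card_fun, ZMod.card, card_Kx]
  rw [hcard', pow_split, ← mul_assoc, mul_comm (2 ^ r)] at hcard
  have h3 : Fintype.card J * 2 ^ (2 ^ r - 1 - r) ≤ S.card :=
    Nat.le_of_mul_le_mul_right hcard (by positivity)
  have h4 : #(S : Set (Sg r N)) = (S.card : Cardinal) := by
    exact Cardinal.mk_coe_finset
  rw [h4, mul_comm]
  exact_mod_cast h3

theorem inner_ev_ne {i j : Fin (N + 1)} (h : i ≠ j) : ⟪(ev i : Ve N), ev j⟫ = 0 := by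
  unfold ev
  rw [EuclideanSpace.inner_single_left]
  simp [h]

/-- **The two-number.** -/
theorem twoNumber_eq (r N : ℕ) (hr : 1 ≤ r) (hN : 1 ≤ N) : twoNumber (symG r N) =
    ((2 ^ (2 ^ r - 1 - r) * max (N + 1) (2 ^ r) : ℕ) : Cardinal) := by
  refine le_antisymm (twoNumber_le r N) ?_
  have k1 : ∀ x : ZMod 2, x ≠ 0 → x = 1 := by decide
  rcases le_total (N + 1) (2 ^ r) with h | h
  · rw [max_eq_right h]
    have hl : (Fin.last N : Fin (N + 1)) ≠ 0 := by
      intro h0
      have := congrArg Fin.val h0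
      simp at this
      omega
    let y : Gp r → Kx r → Ve N := fun g c => if c.1 ⬝ᵥ g = 0 then ev 0 else ev (Fin.last N)
    have key : ∀ u v : ZMod 2, u + v = 0 → u = v := by decide
    have key' : ∀ u v : ZMod 2, u + v = 1 → (u = 0 ∧ v ≠ 0) ∨ (u ≠ 0 ∧ v = 0) := by decide
    have := le_twoNumber y (fun g c => by
        simp only [y]
        split_ifs <;> exact norm_ev _) (fun g h => g + h)
      (fun g h c hc => by
        rw [dotProduct_add] at hc
        simp only [y]
        rw [key _ _ hc])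
      (fun g h c hc => by
        rw [dotProduct_add] at hc
        simp only [y]
        rcases key' _ _ hc with ⟨a, b⟩ | ⟨a, b⟩
        · rw [if_pos a, if_neg b]
          exact inner_ev_ne (Ne.symm hl)
        · rw [if_neg a, if_pos b]
          exact inner_ev_ne hl)
      (fun g h hgh h0 => hgh (eq_of_add_zero h0))
    simpa only [Fintype.card_fun, ZMod.card, Fintype.card_fin] using this
  · rw [max_eq_left h]
    let i0 : Fin r := ⟨0, by omega⟩
    let g0 : Gp r := Pi.single i0 1
    let y : Fin (N + 1) → Kx r → Ve N := fun j c => if c.1 ⬝ᵥ g0 = 0 then ev 0 else ev j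
    have hg0 : g0 ≠ 0 := by
      intro h0
      have := congrFun h0 i0
      simp [g0] at this
    have := le_twoNumber y (fun g c => by
        simp only [y]
        split_ifs <;> exact norm_ev _) (fun i j => if i = j then 0 else g0)
      (fun i j c hc => by
        by_cases hij : i = j
        · rw [hij]
        · rw [if_neg hij] at hc
          simp only [y]
          rw [if_pos hc, if_pos hc])
      (fun i j c hc => by
        by_cases hij : i = j
        · rw [if_pos hij, dotProduct_zero] at hc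
          exact absurd hc (by decide)
        · rw [if_neg hij] at hc
          simp only [y]
          rw [if_neg (by rw [hc]; decide), if_neg (by rw [hc]; decide)]
          exact inner_ev_ne hij)
      (fun i j hij => by
        rw [if_neg hij]
        exact hg0)
    simpa only [Fintype.card_fin] using this

end Pool.Agent.KS6_55.TW
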